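import Mathlib

/-!
# Ratios of the growth function and elements which almost preserve the balls

`G` is a group generated by a finite symmetric set `S`, `B(n)` the ball of radius `n`, `γ n` its
number of elements and `r n = γ (n + 1) / γ n`. An element `h` almost preserves the balls if
`#(B(n) h ∖ B(n)) / γ n → 0`. If `r n → 1` then every element has this property. Here it is shown
how few elements suffice for the converse. For the first Grigorchuk group with its generators
`a`, `b`, `c`, `d` the single element `a` suffices, along any set of integers with bounded gaps: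
`#(B(n) a ∖ B(n)) / γ n ≤ r n - 1` and `r (n + 1) - 1 ≤ 6 #(B(n) a ∖ B(n)) / γ n`. In general a
subgroup of finite index suffices, along any filter, and for groups all of whose nontrivial normal
subgroups have finite index finitely many conjugates of any given element `h ≠ 1` suffice. The
file also contains a proof that the growth of the first Grigorchuk group is subexponential (known,
Grigorchuk 1983; the weights are those of Bartholdi's method), so that a limit of `r n` is one.
-/

set_option autoImplicit false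

namespace Pool.Agent.Results.MP_4613a9_al.AlmostStabilizer

open Filter Topology

variable {G : Type} [Group G]

/-- The ball of radius `n`: the products of at most `n` elements of `S`. -/
def Ball (S : Set G) (n : ℕ) : Set G :=
  {g | ∃ l : List G, l.length ≤ n ∧ (∀ s ∈ l, s ∈ S) ∧ g = l.prod}

/-- The proportion of the elements `g` of the ball of radius `n` with `g h` outside of it. -/
noncomputable def defect (S : Set G) (h : G) (n : ℕ) : ℝ :=
  ({g | g ∈ Ball S n ∧ g * h ∉ Ball S n}.ncard : ℝ) / ((Ball S n).ncard : ℝ)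

/-- The elements `h` which almost preserve the balls `B(n)` along `F`: the proportion of the `g` in
`B(n)` with `g h` outside of `B(n)` tends to zero. -/
def Almost (S : Set G) (F : Filter ℕ) : Set G := {h | Tendsto (defect S h) F (𝓝 0)}

/-- The ratio `r n = γ (n + 1) / γ n`, where `γ n` is the number of elements of `Ball S n`. -/
noncomputable def ratio (S : Set G) (n : ℕ) : ℝ :=
  ((Ball S (n + 1)).ncard : ℝ) / ((Ball S n).ncard : ℝ)

/-- The ratios tend to one along `F`. -/
def RatioOne (S : Set G) (F : Filter ℕ) : Prop := Tendsto (ratio S) F (𝓝 1)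

theorem one_mem (S : Set G) (n : ℕ) : (1 : G) ∈ Ball S n :=
  ⟨[], by simp, by simp, by simp⟩

theorem ball_mono (S : Set G) {n m : ℕ} (h : n ≤ m) : Ball S n ⊆ Ball S m := by
  rintro g ⟨l, h1, h2, h3⟩
  exact ⟨l, h1.trans h, h2, h3⟩

theorem ball_mul {S : Set G} {n m : ℕ} {g h : G} (hg : g ∈ Ball S n) (hh : h ∈ Ball S m) :
    g * h ∈ Ball S (n + m) := by
  obtain ⟨l, h1, h2, rfl⟩ := hg
  obtain ⟨k, h3, h4, rfl⟩ := hh
  refine ⟨l ++ k, ?_, ?_, ?_⟩
  · rw [List.length_append]
    omega
  · intro s hs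
    rcases List.mem_append.1 hs with hs | hs
    · exact h2 s hs
    · exact h4 s hs
  · rw [List.prod_append]

theorem mem_one {S : Set G} {s : G} (hs : s ∈ S) : s ∈ Ball S 1 :=
  ⟨[s], by simp, by simpa using hs, by simp⟩

theorem ball_inv {S : Set G} (hsym : ∀ s ∈ S, s⁻¹ ∈ S) {n : ℕ} {g : G} (hg : g ∈ Ball S n) :
    g⁻¹ ∈ Ball S n := by
  obtain ⟨l, h1, h2, rfl⟩ := hg
  refine ⟨(l.map fun x => x⁻¹).reverse, ?_, ?_, ?_⟩
  · simpa using h1
  · intro s hs
    rw [List.mem_reverse, List.mem_map] at hs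
    obtain ⟨t, ht, rfl⟩ := hs
    exact hsym t (h2 t ht)
  · rw [List.prod_inv_reverse]

theorem ball_finite {S : Set G} (hS : S.Finite) (n : ℕ) : (Ball S n).Finite := by
  induction n with
  | zero =>
    refine (Set.finite_singleton (1 : G)).subset ?_
    rintro g ⟨l, h1, h2, rfl⟩
    have : l = [] := List.length_eq_zero_iff.1 (by omega)
    subst this
    simp
  | succ n ih =>
    refine ((Set.finite_singleton (1 : G)).union (hS.image2 (· * ·) ih)).subset ?_
    rintro g ⟨l, h1, h2, rfl⟩
    cases l with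
    | nil => left; simp
    | cons a l =>
      right
      refine ⟨a, h2 a (by simp), l.prod, ⟨l, ?_, ?_, rfl⟩, ?_⟩
      · simp only [List.length_cons] at h1
        omega
      · intro s hs
        exact h2 s (by simp [hs])
      · simp

theorem card_pos {S : Set G} (hS : S.Finite) (n : ℕ) : (0 : ℝ) < ((Ball S n).ncard : ℝ) := by
  have : 0 < (Ball S n).ncard := (Set.ncard_pos (ball_finite hS n)).2 ⟨1, one_mem S n⟩
  exact_mod_cast this

theorem exists_ball {S : Set G} (hsym : ∀ s ∈ S, s⁻¹ ∈ S) (hgen : Subgroup.closure S = ⊤) (g : G) :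
    ∃ n, g ∈ Ball S n := by
  have hg : g ∈ (Subgroup.closure S).toSubmonoid := by rw [hgen]; exact Subgroup.mem_top g
  rw [Subgroup.closure_toSubmonoid] at hg
  obtain ⟨l, h1, h2⟩ := Submonoid.exists_list_of_mem_closure hg
  refine ⟨l.length, l, le_rfl, fun s hs => ?_, h2.symm⟩
  rcases h1 s hs with h | h
  · exact h
  · have := hsym _ (Set.mem_inv.1 h)
    rwa [inv_inv] at this

/-- The last `j + 1` letters of an element of length at most `n + 1`. -/
theorem split {S : Set G} {n j : ℕ} (hj : j ≤ n) {g : G} (hg : g ∈ Ball S (n + 1)) :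
    ∃ w ∈ Ball S (n - j), ∃ y ∈ Ball S (j + 1), g = w * y := by
  obtain ⟨l, h1, h2, rfl⟩ := hg
  refine ⟨(l.take (n - j)).prod, ⟨l.take (n - j), ?_, ?_, rfl⟩, (l.drop (n - j)).prod,
    ⟨l.drop (n - j), ?_, ?_, rfl⟩, ?_⟩
  · exact List.length_take_le _ _
  · intro s hs
    exact h2 s (List.mem_of_mem_take hs)
  · rw [List.length_drop]
    omega
  · intro s hs
    exact h2 s (List.mem_of_mem_drop hs)
  · rw [← List.prod_append, List.take_append_drop]

theorem defect_nonneg (S : Set G) (h : G) (n : ℕ) : 0 ≤ defect S h n :=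
  div_nonneg (Nat.cast_nonneg _) (Nat.cast_nonneg _)

theorem defect_one (S : Set G) (n : ℕ) : defect S (1 : G) n = 0 := by
  have : {g | g ∈ Ball S n ∧ g * (1 : G) ∉ Ball S n} = ∅ := by
    ext g
    simp
  rw [defect, this]
  simp

theorem defect_mul {S : Set G} (hS : S.Finite) (h k : G) (n : ℕ) :
    defect S (h * k) n ≤ defect S h n + defect S k n := by
  have hf := ball_finite hS n
  have hsub : {g | g ∈ Ball S n ∧ g * (h * k) ∉ Ball S n} ⊆
      {g | g ∈ Ball S n ∧ g * h ∉ Ball S n} ∪
        {g | g ∈ Ball S n ∧ g * h ∈ Ball S n ∧ g * (h * k) ∉ Ball S n} := by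
    rintro g ⟨h1, h2⟩
    by_cases h3 : g * h ∈ Ball S n
    · exact Or.inr ⟨h1, h3, h2⟩
    · exact Or.inl ⟨h1, h3⟩
  have h2 : {g | g ∈ Ball S n ∧ g * h ∈ Ball S n ∧ g * (h * k) ∉ Ball S n}.ncard ≤
      {g | g ∈ Ball S n ∧ g * k ∉ Ball S n}.ncard := by
    refine Set.ncard_le_ncard_of_injOn (fun g => g * h) ?_ (fun a _ b _ hab => mul_right_cancel hab)
      (hf.subset fun g hg => hg.1)
    rintro g ⟨-, h3, h4⟩
    refine ⟨h3, ?_⟩
    rw [mul_assoc]
    exact h4
  have h3 : {g | g ∈ Ball S n ∧ g * (h * k) ∉ Ball S n}.ncard ≤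
      {g | g ∈ Ball S n ∧ g * h ∉ Ball S n}.ncard +
        {g | g ∈ Ball S n ∧ g * k ∉ Ball S n}.ncard := by
    refine (Set.ncard_le_ncard hsub ((hf.subset fun g hg => hg.1).union
      (hf.subset fun g hg => hg.1))).trans ((Set.ncard_union_le _ _).trans ?_)
    exact Nat.add_le_add_left h2 _
  unfold defect
  rw [← add_div]
  refine div_le_div_of_nonneg_right ?_ (Nat.cast_nonneg _)
  exact_mod_cast h3

theorem defect_inv {S : Set G} (hS : S.Finite) (h : G) (n : ℕ) :
    defect S h⁻¹ n ≤ defect S h n := by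
  have hf := ball_finite hS n
  have key : ∀ x : G, {g | g ∈ Ball S n ∧ g * x ∈ Ball S n}.ncard +
      {g | g ∈ Ball S n ∧ g * x ∉ Ball S n}.ncard = (Ball S n).ncard := by
    intro x
    have hd : Disjoint {g | g ∈ Ball S n ∧ g * x ∈ Ball S n}
        {g | g ∈ Ball S n ∧ g * x ∉ Ball S n} := by
      rw [Set.disjoint_left]
      rintro g ⟨-, h1⟩ ⟨-, h2⟩
      exact h2 h1
    rw [← Set.ncard_union_eq hd (hf.subset fun g hg => hg.1) (hf.subset fun g hg => hg.1)]
    congr 1
    ext g
    constructor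
    · rintro (hg | hg)
      · exact hg.1
      · exact hg.1
    · intro hg
      by_cases h2 : g * x ∈ Ball S n
      · exact Or.inl ⟨hg, h2⟩
      · exact Or.inr ⟨hg, h2⟩
  have h1 : {g | g ∈ Ball S n ∧ g * h ∈ Ball S n}.ncard ≤
      {g | g ∈ Ball S n ∧ g * h⁻¹ ∈ Ball S n}.ncard := by
    refine Set.ncard_le_ncard_of_injOn (fun g => g * h) ?_ (fun a _ b _ hab => mul_right_cancel hab)
      (hf.subset fun g hg => hg.1)
    rintro g ⟨h3, h4⟩
    refine ⟨h4, ?_⟩
    simpa using h3
  have h2 : {g | g ∈ Ball S n ∧ g * h⁻¹ ∉ Ball S n}.ncard ≤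
      {g | g ∈ Ball S n ∧ g * h ∉ Ball S n}.ncard := by
    have e1 := key h
    have e2 := key h⁻¹
    omega
  unfold defect
  refine div_le_div_of_nonneg_right ?_ (Nat.cast_nonneg _)
  exact_mod_cast h2

/-- The almost preserving elements form a subgroup. -/
def almost (S : Set G) (hS : S.Finite) (F : Filter ℕ) : Subgroup G where
  carrier := Almost S F
  one_mem' := by
    show Tendsto (defect S 1) F (𝓝 0)
    have : defect S (1 : G) = fun _ => (0 : ℝ) := funext fun n => defect_one S n
    rw [this]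
    exact tendsto_const_nhds
  mul_mem' := by
    intro h k hh hk
    have h1 : Tendsto (fun n => defect S h n + defect S k n) F (𝓝 (0 + 0)) := Tendsto.add hh hk
    rw [add_zero] at h1
    exact squeeze_zero (fun n => defect_nonneg S _ n) (fun n => defect_mul hS h k n) h1
  inv_mem' := by
    intro h hh
    exact squeeze_zero (fun n => defect_nonneg S _ n) (fun n => defect_inv hS h n) hh

theorem ratio_sub {S : Set G} (hS : S.Finite) (n : ℕ) :
    ((Ball S (n + 1)).ncard : ℝ) / ((Ball S n).ncard : ℝ) - 1 =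
      ((Ball S (n + 1) \ Ball S n).ncard : ℝ) / ((Ball S n).ncard : ℝ) := by
  have hp := card_pos hS n
  have h1 : (Ball S (n + 1) \ Ball S n).ncard + (Ball S n).ncard = (Ball S (n + 1)).ncard :=
    Set.ncard_sdiff_add_ncard_of_subset (ball_mono S (Nat.le_succ n)) (ball_finite hS (n + 1))
  have h2 : ((Ball S (n + 1)).ncard : ℝ) =
      ((Ball S (n + 1) \ Ball S n).ncard : ℝ) + ((Ball S n).ncard : ℝ) := by
    exact_mod_cast h1.symm
  rw [h2]
  field_simp
  ring

theorem defect_gen {S : Set G} (hS : S.Finite) {s : G} (hs : s ∈ S) (n : ℕ) :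
    defect S s n ≤ ((Ball S (n + 1)).ncard : ℝ) / ((Ball S n).ncard : ℝ) - 1 := by
  rw [ratio_sub hS, defect]
  refine div_le_div_of_nonneg_right ?_ (Nat.cast_nonneg _)
  have : {g | g ∈ Ball S n ∧ g * s ∉ Ball S n}.ncard ≤ (Ball S (n + 1) \ Ball S n).ncard := by
    refine Set.ncard_le_ncard_of_injOn (fun g => g * s) ?_ (fun a _ b _ hab => mul_right_cancel hab)
      ((ball_finite hS (n + 1)).subset Set.sdiff_subset)
    rintro g ⟨h1, h2⟩
    exact ⟨ball_mul h1 (mem_one hs), h2⟩
  exact_mod_cast this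

theorem top_of_ratio {S : Set G} (hS : S.Finite) (hgen : Subgroup.closure S = ⊤) {F : Filter ℕ}
    (h : RatioOne S F) : almost S hS F = ⊤ := by
  rw [eq_top_iff, ← hgen, Subgroup.closure_le]
  intro s hs
  have h1 : Tendsto (fun n => ((Ball S (n + 1)).ncard : ℝ) / ((Ball S n).ncard : ℝ) - 1) F
      (𝓝 (1 - 1)) := Tendsto.sub_const h 1
  rw [sub_self] at h1
  exact squeeze_zero (fun n => defect_nonneg S _ n) (fun n => defect_gen hS hs n) h1

theorem exists_radius {S : Set G} (hsym : ∀ s ∈ S, s⁻¹ ∈ S) (hgen : Subgroup.closure S = ⊤)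
    (H : Subgroup G) [H.FiniteIndex] : ∃ j, ∀ y : G, ∃ z ∈ Ball S j, z⁻¹ * y ∈ H := by
  classical
  have : Finite (G ⧸ H) := inferInstance
  choose r hr using fun g : G => exists_ball hsym hgen g
  obtain ⟨j, hj⟩ := (Set.finite_range fun q : G ⧸ H => r q.out).bddAbove
  refine ⟨j, fun y => ⟨(y : G ⧸ H).out, ball_mono S (hj ⟨(y : G ⧸ H), rfl⟩) (hr _), ?_⟩⟩
  have h1 : (((y : G ⧸ H).out : G) : G ⧸ H) = (y : G ⧸ H) := Quotient.out_eq' _
  exact QuotientGroup.eq.1 h1

theorem ratio_of_index {S : Set G} (hS : S.Finite) (hsym : ∀ s ∈ S, s⁻¹ ∈ S)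
    (hgen : Subgroup.closure S = ⊤) {F : Filter ℕ} (hF : F ≤ atTop) (H : Subgroup G)
    [H.FiniteIndex] (hH : (H : Set G) ⊆ Almost S F) : RatioOne S F := by
  classical
  obtain ⟨j, hj⟩ := exists_radius hsym hgen H
  have hMf : {m : G | m ∈ H ∧ m ∈ Ball S (2 * j + 1)}.Finite :=
    (ball_finite hS (2 * j + 1)).subset fun m hm => hm.2
  set M := hMf.toFinset with hM
  have hbound : ∀ n, j ≤ n → ((Ball S (n + 1)).ncard : ℝ) / ((Ball S n).ncard : ℝ) - 1 ≤
      ∑ m ∈ M, defect S m n := by
    intro n hn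
    rw [ratio_sub hS]
    unfold defect
    rw [← Finset.sum_div]
    refine div_le_div_of_nonneg_right ?_ (Nat.cast_nonneg _)
    have hsub : Ball S (n + 1) \ Ball S n ⊆
        ⋃ m ∈ M, (fun g => g * m) '' {g | g ∈ Ball S n ∧ g * m ∉ Ball S n} := by
      rintro g ⟨hg, hg'⟩
      obtain ⟨w, hw, y, hy, rfl⟩ := split hn hg
      obtain ⟨z, hz, hzy⟩ := hj y
      rw [Set.mem_iUnion₂]
      refine ⟨z⁻¹ * y, ?_, w * z, ⟨?_, ?_⟩, ?_⟩
      · rw [hM, Set.Finite.mem_toFinset]
        refine ⟨hzy, ?_⟩
        have := ball_mul (ball_inv hsym hz) hy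
        exact ball_mono S (by omega) this
      · exact ball_mono S (by omega) (ball_mul hw hz)
      · have e : w * z * (z⁻¹ * y) = w * y := by group
        rw [e]
        exact hg'
      · show w * z * (z⁻¹ * y) = w * y
        group
    have hfin : ∀ m : G, ((fun g => g * m) '' {g | g ∈ Ball S n ∧ g * m ∉ Ball S n}).Finite :=
      fun m => ((ball_finite hS n).subset fun g hg => hg.1).image _
    have hcard : ((⋃ m ∈ M, (fun g => g * m) '' {g | g ∈ Ball S n ∧ g * m ∉ Ball S n})).ncard ≤
        ∑ m ∈ M, {g | g ∈ Ball S n ∧ g * m ∉ Ball S n}.ncard := by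
      clear hsub
      induction M using Finset.induction_on with
      | empty => simp
      | insert a M ha ih =>
        rw [Finset.set_biUnion_insert, Finset.sum_insert ha]
        refine (Set.ncard_union_le _ _).trans (Nat.add_le_add ?_ ih)
        exact Set.ncard_image_le ((ball_finite hS n).subset fun g hg => hg.1)
    have h3 : (Ball S (n + 1) \ Ball S n).ncard ≤
        ∑ m ∈ M, {g | g ∈ Ball S n ∧ g * m ∉ Ball S n}.ncard :=
      (Set.ncard_le_ncard hsub (M.finite_toSet.biUnion fun m _ => hfin m)).trans hcard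
    exact_mod_cast h3
  have hsum : Tendsto (fun n => ∑ m ∈ M, defect S m n) F (𝓝 0) := by
    have : Tendsto (fun n => ∑ m ∈ M, defect S m n) F (𝓝 (∑ _m ∈ M, (0 : ℝ))) :=
      tendsto_finsetSum M fun m hm => hH ((Set.Finite.mem_toFinset hMf).1 hm).1
    simpa using this
  have hev : ∀ᶠ n in F, j ≤ n := hF (eventually_ge_atTop j)
  have h0 : Tendsto (fun n => ((Ball S (n + 1)).ncard : ℝ) / ((Ball S n).ncard : ℝ) - 1) F (𝓝 0) := by
    refine squeeze_zero' (Eventually.of_forall fun n => ?_) (hev.mono hbound) hsum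
    rw [ratio_sub hS]
    exact div_nonneg (Nat.cast_nonneg _) (Nat.cast_nonneg _)
  have h1 := h0.add_const 1
  simp only [sub_add_cancel, zero_add] at h1
  exact h1

omit [Group G] in
theorem card_union_le {ι : Type} (I : Finset ι) (D : ι → Set G) (f : ι → G → G)
    (hD : ∀ i, (D i).Finite) :
    (⋃ i ∈ I, f i '' D i).Finite ∧ (⋃ i ∈ I, f i '' D i).ncard ≤ ∑ i ∈ I, (D i).ncard := by
  classical
  refine ⟨I.finite_toSet.biUnion fun i _ => (hD i).image _, ?_⟩
  induction I using Finset.induction_on with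
  | empty => simp
  | insert a I ha ih =>
    rw [Finset.set_biUnion_insert, Finset.sum_insert ha]
    refine (Set.ncard_union_le _ _).trans (Nat.add_le_add ?_ ih)
    exact Set.ncard_image_le (hD a)

/-- If every geodesic word of length `k` has a nonempty subword whose product almost preserves the
balls, then the ratios tend to one. -/
theorem ratio_of_subword {S : Set G} (hS : S.Finite) {k : ℕ}
    (hk : ∀ l : List G, l.length = k → (∀ s ∈ l, s ∈ S) → (∀ m < k, l.prod ∉ Ball S m) →
      ∃ l₁ l₂ l₃ : List G, l = l₁ ++ (l₂ ++ l₃) ∧ l₂ ≠ [] ∧ l₂.prod ∈ Almost S atTop) :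
    RatioOne S atTop := by
  classical
  have hMf : {m : G | m ∈ Almost S atTop ∧ m ∈ Ball S k}.Finite :=
    (ball_finite hS k).subset fun m hm => hm.2
  set I : Finset (ℕ × G × G) :=
    Finset.range k ×ˢ (hMf.toFinset ×ˢ (ball_finite hS k).toFinset) with hI
  have hbound : ∀ n, k ≤ n → ((Ball S (n + 1)).ncard : ℝ) / ((Ball S n).ncard : ℝ) - 1 ≤
      ∑ i ∈ I, defect S i.2.1 (n - i.1) := by
    intro n hn
    have hDf : ∀ i : ℕ × G × G,
        {g | g ∈ Ball S (n - i.1) ∧ g * i.2.1 ∉ Ball S (n - i.1)}.Finite :=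
      fun i => (ball_finite hS (n - i.1)).subset fun g hg => hg.1
    have hsub : Ball S (n + 1) \ Ball S n ⊆
        ⋃ i ∈ I, (fun g => g * i.2.1 * i.2.2) ''
          {g | g ∈ Ball S (n - i.1) ∧ g * i.2.1 ∉ Ball S (n - i.1)} := by
      rintro g ⟨⟨l, h1, h2, rfl⟩, hg'⟩
      have hlen : l.length = n + 1 := by
        by_contra hne
        exact hg' ⟨l, by omega, h2, rfl⟩
      have hq1 : (l.drop (n + 1 - k)).length = k := by
        rw [List.length_drop]
        omega
      have hpb : (l.take (n + 1 - k)).prod ∈ Ball S (n + 1 - k) :=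
        ⟨_, List.length_take_le _ _, fun s hs => h2 s (List.mem_of_mem_take hs), rfl⟩
      have hprod : l.prod = (l.take (n + 1 - k)).prod * (l.drop (n + 1 - k)).prod := by
        rw [← List.prod_append, List.take_append_drop]
      obtain ⟨l₁, l₂, l₃, e, hne, hu⟩ := hk (l.drop (n + 1 - k)) hq1
        (fun s hs => h2 s (List.mem_of_mem_drop hs)) (by
          intro m hm hmem
          apply hg'
          rw [hprod]
          exact ball_mono S (by omega) (ball_mul hpb hmem))
      have hSq : ∀ s ∈ l₁ ++ (l₂ ++ l₃), s ∈ S := by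
        rw [← e]
        exact fun s hs => h2 s (List.mem_of_mem_drop hs)
      have hlq : l₁.length + (l₂.length + l₃.length) = k := by
        rw [← hq1, e]
        simp
      have hpos : 1 ≤ l₂.length := List.length_pos_iff.2 hne
      have b1 : l₁.prod ∈ Ball S l₁.length := ⟨l₁, le_rfl, fun s hs => hSq s (by simp [hs]), rfl⟩
      have b2 : l₂.prod ∈ Ball S l₂.length := ⟨l₂, le_rfl, fun s hs => hSq s (by simp [hs]), rfl⟩
      have b3 : l₃.prod ∈ Ball S l₃.length := ⟨l₃, le_rfl, fun s hs => hSq s (by simp [hs]), rfl⟩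
      have hg : l.prod = (l.take (n + 1 - k)).prod * l₁.prod * l₂.prod * l₃.prod := by
        rw [hprod, e, List.prod_append, List.prod_append]
        group
      rw [Set.mem_iUnion₂]
      refine ⟨(k - 1 - l₁.length, l₂.prod, l₃.prod), ?_,
        (l.take (n + 1 - k)).prod * l₁.prod, ⟨?_, ?_⟩, ?_⟩
      · rw [hI, Finset.mem_product, Finset.mem_product, Finset.mem_range,
          Set.Finite.mem_toFinset, Set.Finite.mem_toFinset]
        refine ⟨?_, ⟨hu, ball_mono S (by omega) b2⟩, ball_mono S (by omega) b3⟩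
        show k - 1 - l₁.length < k
        omega
      · show (l.take (n + 1 - k)).prod * l₁.prod ∈ Ball S (n - (k - 1 - l₁.length))
        exact ball_mono S (by omega) (ball_mul hpb b1)
      · show (l.take (n + 1 - k)).prod * l₁.prod * l₂.prod ∉ Ball S (n - (k - 1 - l₁.length))
        intro hmem
        apply hg'
        rw [hg]
        exact ball_mono S (by omega) (ball_mul hmem b3)
      · show (l.take (n + 1 - k)).prod * l₁.prod * l₂.prod * l₃.prod = l.prod
        exact hg.symm
    obtain ⟨hf1, hf2⟩ := card_union_le I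
      (fun i => {g | g ∈ Ball S (n - i.1) ∧ g * i.2.1 ∉ Ball S (n - i.1)})
      (fun i g => g * i.2.1 * i.2.2) hDf
    have h3 : (Ball S (n + 1) \ Ball S n).ncard ≤
        ∑ i ∈ I, {g | g ∈ Ball S (n - i.1) ∧ g * i.2.1 ∉ Ball S (n - i.1)}.ncard :=
      (Set.ncard_le_ncard hsub hf1).trans hf2
    rw [ratio_sub hS]
    have hp := card_pos hS n
    rw [div_le_iff₀ hp, Finset.sum_mul]
    have h4 : ((Ball S (n + 1) \ Ball S n).ncard : ℝ) ≤
        ∑ i ∈ I, ({g | g ∈ Ball S (n - i.1) ∧ g * i.2.1 ∉ Ball S (n - i.1)}.ncard : ℝ) := by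
      exact_mod_cast h3
    refine h4.trans (Finset.sum_le_sum fun i _ => ?_)
    have h5 : ((Ball S (n - i.1)).ncard : ℝ) ≤ ((Ball S n).ncard : ℝ) := by
      exact_mod_cast Set.ncard_le_ncard (ball_mono S (Nat.sub_le n i.1)) (ball_finite hS n)
    have h6 : ({g | g ∈ Ball S (n - i.1) ∧ g * i.2.1 ∉ Ball S (n - i.1)}.ncard : ℝ) =
        defect S i.2.1 (n - i.1) * ((Ball S (n - i.1)).ncard : ℝ) := by
      rw [defect, div_mul_cancel₀ _ (card_pos hS (n - i.1)).ne']
    rw [h6]
    exact mul_le_mul_of_nonneg_left h5 (defect_nonneg S _ _)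
  have hsum : Tendsto (fun n => ∑ i ∈ I, defect S i.2.1 (n - i.1)) atTop (𝓝 0) := by
    have : Tendsto (fun n => ∑ i ∈ I, defect S i.2.1 (n - i.1)) atTop (𝓝 (∑ _i ∈ I, (0 : ℝ))) := by
      refine tendsto_finsetSum I fun i hi => ?_
      have h7 : i.2.1 ∈ Almost S atTop := by
        rw [hI, Finset.mem_product, Finset.mem_product, Set.Finite.mem_toFinset] at hi
        exact hi.2.1.1
      exact Tendsto.comp h7 (tendsto_sub_atTop_nat i.1)
    simpa using this
  have hev : ∀ᶠ n in atTop, k ≤ n := eventually_ge_atTop k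
  have h0 : Tendsto (fun n => ((Ball S (n + 1)).ncard : ℝ) / ((Ball S n).ncard : ℝ) - 1) atTop
      (𝓝 0) := by
    refine squeeze_zero' (Eventually.of_forall fun n => ?_) (hev.mono hbound) hsum
    rw [ratio_sub hS]
    exact div_nonneg (Nat.cast_nonneg _) (Nat.cast_nonneg _)
  have h1 := h0.add_const 1
  simp only [sub_add_cancel, zero_add] at h1
  exact h1

/-- Subexponential growth. -/
def Subexponential (S : Set G) : Prop :=
  ∀ c : ℝ, 1 < c → ∀ᶠ n in atTop, ((Ball S n).ncard : ℝ) ≤ c ^ n

theorem limit_one {S : Set G} (hS : S.Finite) (hsub : Subexponential S) {L : ℝ}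
    (hL : Tendsto (fun n => ((Ball S (n + 1)).ncard : ℝ) / ((Ball S n).ncard : ℝ)) atTop (𝓝 L)) :
    L = 1 := by
  have h1 : 1 ≤ L := by
    refine ge_of_tendsto' hL fun n => ?_
    rw [le_div_iff₀ (card_pos hS n), one_mul]
    exact_mod_cast Set.ncard_le_ncard (ball_mono S (Nat.le_succ n)) (ball_finite hS (n + 1))
  by_contra hne
  have h2 : 1 < L := lt_of_le_of_ne h1 (Ne.symm hne)
  obtain ⟨c, hc1, hc2⟩ := exists_between h2
  obtain ⟨e, he1, he2⟩ := exists_between hc1
  obtain ⟨N, hN⟩ := eventually_atTop.1 (hL.eventually (lt_mem_nhds hc2))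
  obtain ⟨M, hM⟩ := eventually_atTop.1 (hsub e he1)
  have hgrow : ∀ k, c ^ k ≤ ((Ball S (N + k)).ncard : ℝ) := by
    intro k
    induction k with
    | zero =>
      rw [pow_zero]
      have : 0 < (Ball S N).ncard := (Set.ncard_pos (ball_finite hS N)).2 ⟨1, one_mem S N⟩
      exact_mod_cast this
    | succ k ih =>
      have h3 := (lt_div_iff₀ (card_pos hS (N + k))).1 (hN (N + k) (Nat.le_add_right N k))
      have h4 : c * c ^ k ≤ c * ((Ball S (N + k)).ncard : ℝ) :=
        mul_le_mul_of_nonneg_left ih (by linarith)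
      rw [pow_succ, mul_comm]
      exact h4.trans h3.le
  have he0 : 0 < e := by linarith
  have hq : 1 < c / e := (one_lt_div he0).2 he2
  obtain ⟨k, hkM, hk⟩ : ∃ k, M ≤ k ∧ e ^ N < (c / e) ^ k :=
    ((eventually_ge_atTop M).and
      ((tendsto_pow_atTop_atTop_of_one_lt hq).eventually (eventually_gt_atTop (e ^ N)))).exists
  have h5 := hgrow k
  have h6 := hM (N + k) (by omega)
  rw [div_pow, lt_div_iff₀ (pow_pos he0 k), ← pow_add] at hk
  linarith

/-- If every word of length `k` in the generators outside of `S'` is not geodesic, and the elements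
of `S'` almost preserve the balls, then the ratios tend to one. -/
theorem ratio_of_generators {S : Set G} (hS : S.Finite) (S' : Set G)
    (hS' : S' ⊆ Almost S atTop) {k : ℕ}
    (hk : ∀ l : List G, l.length = k → (∀ s ∈ l, s ∈ S ∧ s ∉ S') → ∃ m < k, l.prod ∈ Ball S m) :
    RatioOne S atTop := by
  refine ratio_of_subword hS (k := k) fun l h1 h2 h3 => ?_
  by_cases h : ∃ s ∈ l, s ∈ S'
  · obtain ⟨s, hs, hs'⟩ := h
    obtain ⟨l₁, l₃, e⟩ := List.append_of_mem hs
    refine ⟨l₁, [s], l₃, by simpa using e, by simp, ?_⟩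
    rw [List.prod_singleton]
    exact hS' hs'
  · obtain ⟨m, hm, hmem⟩ := hk l h1 fun s hs => ⟨h2 s hs, fun hs' => h ⟨s, hs, hs'⟩⟩
    exact absurd hmem (h3 m hm)

theorem mem_finite {C : Set G} {x : G} (hx : x ∈ Subgroup.closure C) :
    ∃ T ⊆ C, T.Finite ∧ x ∈ Subgroup.closure T := by
  induction hx using Subgroup.closure_induction with
  | mem x hx => exact ⟨{x}, by simpa using hx, Set.finite_singleton x, Subgroup.subset_closure rfl⟩
  | one => exact ⟨∅, Set.empty_subset _, Set.finite_empty, Subgroup.one_mem _⟩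
  | mul x y _ _ h1 h2 =>
    obtain ⟨T, a, b, c⟩ := h1
    obtain ⟨U, d, e, f⟩ := h2
    exact ⟨T ∪ U, Set.union_subset a d, b.union e,
      Subgroup.mul_mem _ (Subgroup.closure_mono Set.subset_union_left c)
        (Subgroup.closure_mono Set.subset_union_right f)⟩
  | inv x _ h =>
    obtain ⟨T, a, b, c⟩ := h
    exact ⟨T, a, b, Subgroup.inv_mem _ c⟩

theorem finite_generators {C : Set G} {N : Subgroup G} (hN : N.FG)
    (hC : Subgroup.closure C = N) : ∃ T ⊆ C, T.Finite ∧ N ≤ Subgroup.closure T := by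
  obtain ⟨t, ht⟩ := hN
  have h1 : ∀ x : t, ∃ T ⊆ C, T.Finite ∧ (x : G) ∈ Subgroup.closure T := fun x =>
    mem_finite (by rw [hC, ← ht]; exact Subgroup.subset_closure x.2)
  choose T hT1 hT2 hT3 using h1
  refine ⟨⋃ x : t, T x, Set.iUnion_subset hT1, Set.finite_iUnion hT2, ?_⟩
  rw [← ht, Subgroup.closure_le]
  intro x hx
  exact Subgroup.closure_mono (Set.subset_iUnion T ⟨x, hx⟩) (hT3 ⟨x, hx⟩)

/-- If every nontrivial normal subgroup has finite index, then finitely many conjugates of any
given element `h ≠ 1` decide. -/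
theorem conjugates {S : Set G} (hS : S.Finite) (hsym : ∀ s ∈ S, s⁻¹ ∈ S)
    (hgen : Subgroup.closure S = ⊤) (hji : ∀ N : Subgroup G, N.Normal → N ≠ ⊥ → N.FiniteIndex)
    {h : G} (hne : h ≠ 1) :
    ∃ T : Set G, T.Finite ∧ (∀ t ∈ T, ∃ x : G, t = x * h * x⁻¹) ∧
      ∀ F : Filter ℕ, F ≤ atTop → (RatioOne S F ↔ T ⊆ Almost S F) := by
  have h2 : (Subgroup.normalClosure {h}).FiniteIndex := by
    refine hji _ inferInstance fun hbot => hne ?_
    have h3 : h ∈ Subgroup.normalClosure {h} :=
      Subgroup.subset_normalClosure (Set.mem_singleton h)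
    rw [hbot] at h3
    exact Subgroup.mem_bot.1 h3
  have hfg : Group.FG G := ⟨⟨hS.toFinset, by rw [Set.Finite.coe_toFinset, hgen]⟩⟩
  have h4 : (Subgroup.normalClosure {h}).FG :=
    (Group.fg_iff_subgroup_fg _).1 (Subgroup.fg_of_index_ne_zero _)
  obtain ⟨T, hT1, hT2, hT3⟩ := finite_generators h4
    (C := Group.conjugatesOfSet {h}) rfl
  refine ⟨T, hT2, fun t ht => ?_, fun F hF => ⟨fun hr t _ => ?_, fun hT => ?_⟩⟩
  · obtain ⟨z, hz, hzt⟩ := Group.mem_conjugatesOfSet_iff.1 (hT1 ht)
    rw [Set.mem_singleton_iff] at hz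
    subst hz
    obtain ⟨x, hx⟩ := isConj_iff.1 hzt
    exact ⟨x, hx.symm⟩
  · have h5 : t ∈ almost S hS F := by
      rw [top_of_ratio hS hgen hr]
      exact Subgroup.mem_top _
    exact h5
  · refine ratio_of_index hS hsym hgen hF (Subgroup.normalClosure {h}) ?_
    have h6 : Subgroup.closure T ≤ almost S hS F := (Subgroup.closure_le _).2 hT
    exact fun x hx => h6 (hT3 hx)

/-- A geodesic word. -/
def Geo (S : Set G) (l : List G) : Prop := (∀ s ∈ l, s ∈ S) ∧ ∀ m < l.length, l.prod ∉ Ball S m

theorem geo_append {S : Set G} {l₁ l₂ : List G} (h : Geo S (l₁ ++ l₂)) : Geo S l₁ ∧ Geo S l₂ := by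
  obtain ⟨h1, h2⟩ := h
  have b1 : l₁.prod ∈ Ball S l₁.length := ⟨l₁, le_rfl, fun s hs => h1 s (by simp [hs]), rfl⟩
  have b2 : l₂.prod ∈ Ball S l₂.length := ⟨l₂, le_rfl, fun s hs => h1 s (by simp [hs]), rfl⟩
  refine ⟨⟨fun s hs => h1 s (by simp [hs]), fun m hm hmem => ?_⟩,
    ⟨fun s hs => h1 s (by simp [hs]), fun m hm hmem => ?_⟩⟩
  · refine h2 (m + l₂.length) (by rw [List.length_append]; omega) ?_
    rw [List.prod_append]
    exact ball_mul hmem b2
  · refine h2 (l₁.length + m) (by rw [List.length_append]; omega) ?_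
    rw [List.prod_append]
    exact ball_mul b1 hmem

theorem geo_of_sphere {S : Set G} {n : ℕ} {g : G} (h : g ∈ Ball S (n + 1) \ Ball S n) :
    ∃ l, Geo S l ∧ l.length = n + 1 ∧ g = l.prod := by
  obtain ⟨⟨l, h1, h2, rfl⟩, h3⟩ := h
  have hl : l.length = n + 1 := by
    by_contra hne
    exact h3 ⟨l, by omega, h2, rfl⟩
  exact ⟨l, ⟨h2, fun m hm hmem => h3 (ball_mono S (by omega) hmem)⟩, hl, rfl⟩

theorem sphere_le {S : Set G} (hS : S.Finite) (n j : ℕ) :
    (Ball S (n + j + 1) \ Ball S (n + j)).ncard ≤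
      (Ball S (n + 1) \ Ball S n).ncard * (Ball S j).ncard := by
  have hsub : Ball S (n + j + 1) \ Ball S (n + j) ⊆
      (fun p : G × G => p.1 * p.2) '' ((Ball S (n + 1) \ Ball S n) ×ˢ Ball S j) := by
    intro g hg
    obtain ⟨l, hl, hlen, rfl⟩ := geo_of_sphere hg
    have e : l.prod = (l.take (n + 1)).prod * (l.drop (n + 1)).prod := by
      rw [← List.prod_append, List.take_append_drop]
    have b1 : (l.take (n + 1)).prod ∈ Ball S (n + 1) :=
      ⟨_, List.length_take_le _ _, fun s hs => hl.1 s (List.mem_of_mem_take hs), rfl⟩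
    have b2 : (l.drop (n + 1)).prod ∈ Ball S j :=
      ⟨_, by rw [List.length_drop]; omega, fun s hs => hl.1 s (List.mem_of_mem_drop hs), rfl⟩
    refine ⟨((l.take (n + 1)).prod, (l.drop (n + 1)).prod), ⟨⟨b1, fun hmem => ?_⟩, b2⟩, e.symm⟩
    apply hg.2
    rw [e]
    exact ball_mul hmem b2
  have hf1 : (Ball S (n + 1) \ Ball S n).Finite :=
    (ball_finite hS (n + 1)).subset Set.sdiff_subset
  have hf := hf1.prod (ball_finite hS j)
  calc (Ball S (n + j + 1) \ Ball S (n + j)).ncard
      ≤ ((fun p : G × G => p.1 * p.2) '' ((Ball S (n + 1) \ Ball S n) ×ˢ Ball S j)).ncard :=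
        Set.ncard_le_ncard hsub (hf.image _)
    _ ≤ ((Ball S (n + 1) \ Ball S n) ×ˢ Ball S j).ncard := Set.ncard_image_le hf
    _ = (Ball S (n + 1) \ Ball S n).ncard * (Ball S j).ncard := Set.ncard_prod

theorem excess_nonneg {S : Set G} (hS : S.Finite) (n : ℕ) : 0 ≤ ratio S n - 1 := by
  rw [ratio, ratio_sub hS]
  exact div_nonneg (Nat.cast_nonneg _) (Nat.cast_nonneg _)

theorem excess_add {S : Set G} (hS : S.Finite) (n j : ℕ) :
    ratio S (n + j) - 1 ≤ ((Ball S j).ncard : ℝ) * (ratio S n - 1) := by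
  rw [ratio, ratio, ratio_sub hS, ratio_sub hS, div_le_iff₀ (card_pos hS (n + j))]
  have h1 : ((Ball S (n + j + 1) \ Ball S (n + j)).ncard : ℝ) ≤
      ((Ball S (n + 1) \ Ball S n).ncard : ℝ) * ((Ball S j).ncard : ℝ) := by
    exact_mod_cast sphere_le hS n j
  have h2 : ((Ball S n).ncard : ℝ) ≤ ((Ball S (n + j)).ncard : ℝ) := by
    exact_mod_cast Set.ncard_le_ncard (ball_mono S (Nat.le_add_right n j)) (ball_finite hS (n + j))
  have h3 : ((Ball S (n + 1) \ Ball S n).ncard : ℝ) =
      ((Ball S (n + 1) \ Ball S n).ncard : ℝ) / ((Ball S n).ncard : ℝ) *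
        ((Ball S n).ncard : ℝ) := by
    rw [div_mul_cancel₀ _ (card_pos hS n).ne']
  have h4 : 0 ≤ ((Ball S (n + 1) \ Ball S n).ncard : ℝ) / ((Ball S n).ncard : ℝ) :=
    div_nonneg (Nat.cast_nonneg _) (Nat.cast_nonneg _)
  have h5 := mul_le_mul_of_nonneg_left h2 h4
  rw [← h3] at h5
  calc ((Ball S (n + j + 1) \ Ball S (n + j)).ncard : ℝ)
      ≤ ((Ball S (n + 1) \ Ball S n).ncard : ℝ) * ((Ball S j).ncard : ℝ) := h1
    _ ≤ (((Ball S (n + 1) \ Ball S n).ncard : ℝ) / ((Ball S n).ncard : ℝ) *
        ((Ball S (n + j)).ncard : ℝ)) * ((Ball S j).ncard : ℝ) :=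
          mul_le_mul_of_nonneg_right h5 (Nat.cast_nonneg _)
    _ = _ := by ring

/-- A set of integers with bounded gaps. -/
def BoundedGaps (A : Set ℕ) : Prop := ∃ k : ℕ, ∀ n : ℕ, ∃ m ∈ A, n ≤ m ∧ m ≤ n + k

theorem ratio_of_gaps {S : Set G} (hS : S.Finite) {A : Set ℕ} (hA : BoundedGaps A)
    (f : ℕ → ℝ) (j : ℕ) (hf : ∀ n, ratio S (n + j) - 1 ≤ f n)
    (hlim : Tendsto f (atTop ⊓ 𝓟 A) (𝓝 0)) : RatioOne S atTop := by
  obtain ⟨k, hk⟩ := hA
  choose m hmA hm1 hm2 using hk
  have hm : Tendsto m atTop (atTop ⊓ 𝓟 A) := by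
    refine tendsto_inf.2 ⟨tendsto_atTop_mono hm1 tendsto_id, ?_⟩
    exact tendsto_principal.2 (Eventually.of_forall hmA)
  have h1 : Tendsto (fun n => ((Ball S k).ncard : ℝ) * f (m n)) atTop (𝓝 0) := by
    have := (hlim.comp hm).const_mul ((Ball S k).ncard : ℝ)
    simpa using this
  have h2 : Tendsto (fun n => ratio S (n + (k + j)) - 1) atTop (𝓝 0) := by
    refine squeeze_zero (fun n => excess_nonneg hS _) (fun n => ?_) h1
    have e : n + (k + j) = (m n + j) + (n + k - m n) := by
      have := hm1 n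
      have := hm2 n
      omega
    rw [e]
    refine (excess_add hS _ _).trans ?_
    refine mul_le_mul ?_ (hf (m n)) (excess_nonneg hS _) (Nat.cast_nonneg _)
    have := hm1 n
    exact_mod_cast Set.ncard_le_ncard (ball_mono S (by omega)) (ball_finite hS k)
  have h3 : Tendsto (fun n => ratio S n - 1) atTop (𝓝 0) :=
    (tendsto_add_atTop_iff_nat (f := fun n => ratio S n - 1) (k + j)).1 h2
  have h4 := h3.add_const 1
  simp only [sub_add_cancel, zero_add] at h4
  exact h4

/-- The generator `a`: `a(0w) = 1w`, `a(1w) = 0w`. The letters `0` and `1` are `false` and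
`true`. -/
def actA : List Bool → List Bool
  | [] => []
  | x :: w => (!x) :: w

mutual

/-- The generator `b`: `b(0w) = 0a(w)`, `b(1w) = 1c(w)`. -/
def actB : List Bool → List Bool
  | [] => []
  | false :: w => false :: actA w
  | true :: w => true :: actC w

/-- The generator `c`: `c(0w) = 0a(w)`, `c(1w) = 1d(w)`. -/
def actC : List Bool → List Bool
  | [] => []
  | false :: w => false :: actA w
  | true :: w => true :: actD w

/-- The generator `d`: `d(0w) = 0w`, `d(1w) = 1b(w)`. -/
def actD : List Bool → List Bool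
  | [] => []
  | false :: w => false :: w
  | true :: w => true :: actB w

end

theorem actA_actA (w : List Bool) : actA (actA w) = w := by
  cases w with
  | nil => rfl
  | cons x w => simp [actA]

theorem act_inv (w : List Bool) :
    actB (actB w) = w ∧ actC (actC w) = w ∧ actD (actD w) = w := by
  induction w with
  | nil => simp [actB, actC, actD]
  | cons x w ih =>
    obtain ⟨h1, h2, h3⟩ := ih
    cases x <;> simp [actB, actC, actD, actA_actA, h1, h2, h3]

theorem act_mul (w : List Bool) :
    (actB (actC w) = actD w ∧ actC (actB w) = actD w) ∧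
      (actC (actD w) = actB w ∧ actD (actC w) = actB w) ∧
      (actB (actD w) = actC w ∧ actD (actB w) = actC w) := by
  induction w with
  | nil => simp [actB, actC, actD]
  | cons x w ih =>
    obtain ⟨⟨h1, h2⟩, ⟨h3, h4⟩, h5, h6⟩ := ih
    cases x <;> simp [actB, actC, actD, actA_actA, h1, h2, h3, h4, h5, h6]

/-- The permutation `a` of the words. -/
def permA : Equiv.Perm (List Bool) := Function.Involutive.toPerm actA actA_actA

/-- The permutation `b` of the words. -/
def permB : Equiv.Perm (List Bool) := Function.Involutive.toPerm actB fun w => (act_inv w).1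

/-- The permutation `c` of the words. -/
def permC : Equiv.Perm (List Bool) := Function.Involutive.toPerm actC fun w => (act_inv w).2.1

/-- The permutation `d` of the words. -/
def permD : Equiv.Perm (List Bool) := Function.Involutive.toPerm actD fun w => (act_inv w).2.2

/-- The first Grigorchuk group. -/
def Grigorchuk : Subgroup (Equiv.Perm (List Bool)) :=
  Subgroup.closure {permA, permB, permC, permD}

/-- The elements `a`, `b`, `c`, `d` of the first Grigorchuk group. -/
def gens : Set Grigorchuk :=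
  {g | (g : Equiv.Perm (List Bool)) ∈ ({permA, permB, permC, permD} : Set (Equiv.Perm (List Bool)))}

/-- The generator `a`. -/
def genA : Grigorchuk := ⟨permA, Subgroup.subset_closure (by simp)⟩

/-- The generator `b`. -/
def genB : Grigorchuk := ⟨permB, Subgroup.subset_closure (by simp)⟩

/-- The generator `c`. -/
def genC : Grigorchuk := ⟨permC, Subgroup.subset_closure (by simp)⟩

/-- The generator `d`. -/
def genD : Grigorchuk := ⟨permD, Subgroup.subset_closure (by simp)⟩

theorem gens_eq : gens = {genA, genB, genC, genD} := by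
  ext g
  simp only [gens, Set.mem_insert_iff, Set.mem_singleton_iff, Set.mem_ofPred_eq, genA, genB, genC,
    genD, Subtype.ext_iff]

theorem gens_finite : gens.Finite := by
  rw [gens_eq]
  exact Set.toFinite _

theorem gens_closure : Subgroup.closure gens = ⊤ :=
  Subgroup.closure_closure_coe_preimage

theorem genA_mul : genA * genA = 1 := Subtype.ext (Equiv.ext actA_actA)

theorem genB_mul : genB * genB = 1 := Subtype.ext (Equiv.ext fun w => (act_inv w).1)

theorem genC_mul : genC * genC = 1 := Subtype.ext (Equiv.ext fun w => (act_inv w).2.1)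

theorem genD_mul : genD * genD = 1 := Subtype.ext (Equiv.ext fun w => (act_inv w).2.2)

theorem gen_mul :
    (genB * genC = genD ∧ genC * genB = genD) ∧ (genC * genD = genB ∧ genD * genC = genB) ∧
      (genB * genD = genC ∧ genD * genB = genC) :=
  ⟨⟨Subtype.ext (Equiv.ext fun w => (act_mul w).1.1), Subtype.ext (Equiv.ext fun w => (act_mul w).1.2)⟩,
    ⟨Subtype.ext (Equiv.ext fun w => (act_mul w).2.1.1),
      Subtype.ext (Equiv.ext fun w => (act_mul w).2.1.2)⟩,
    ⟨Subtype.ext (Equiv.ext fun w => (act_mul w).2.2.1),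
      Subtype.ext (Equiv.ext fun w => (act_mul w).2.2.2)⟩⟩

theorem gens_inv (s : Grigorchuk) (hs : s ∈ gens) : s⁻¹ ∈ gens := by
  have key : ∀ x : Grigorchuk, x * x = 1 → x⁻¹ = x := fun x hx => inv_eq_of_mul_eq_one_left hx
  rw [gens_eq] at hs ⊢
  simp only [Set.mem_insert_iff, Set.mem_singleton_iff] at hs ⊢
  rcases hs with rfl | rfl | rfl | rfl
  · rw [key _ genA_mul]; simp
  · rw [key _ genB_mul]; simp
  · rw [key _ genC_mul]; simp
  · rw [key _ genD_mul]; simp

theorem mul_mem_ball {x y : Grigorchuk} (hx : x ∈ ({genB, genC, genD} : Set Grigorchuk))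
    (hy : y ∈ ({genB, genC, genD} : Set Grigorchuk)) : x * y ∈ Ball gens 1 := by
  have h1 : (1 : Grigorchuk) ∈ Ball gens 1 := one_mem _ _
  have hB : genB ∈ Ball gens 1 := mem_one (by rw [gens_eq]; simp)
  have hC : genC ∈ Ball gens 1 := mem_one (by rw [gens_eq]; simp)
  have hD : genD ∈ Ball gens 1 := mem_one (by rw [gens_eq]; simp)
  obtain ⟨⟨e1, e2⟩, ⟨e3, e4⟩, e5, e6⟩ := gen_mul
  simp only [Set.mem_insert_iff, Set.mem_singleton_iff] at hx hy
  rcases hx with rfl | rfl | rfl <;> rcases hy with rfl | rfl | rfl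
  · rwa [genB_mul]
  · rwa [e1]
  · rwa [e5]
  · rwa [e2]
  · rwa [genC_mul]
  · rwa [e3]
  · rwa [e6]
  · rwa [e4]
  · rwa [genD_mul]

theorem letter {x : Grigorchuk} (hx : x ∈ gens) (hne : x ≠ genA) :
    x ∈ ({genB, genC, genD} : Set Grigorchuk) := by
  rw [gens_eq, Set.mem_insert_iff] at hx
  exact hx.resolve_left hne

theorem pair_alt {x y : Grigorchuk} (h : Geo gens [x, y]) : (x = genA ↔ y ≠ genA) := by
  obtain ⟨h1, h2⟩ := h
  have hx := h1 x (by simp)
  have hy := h1 y (by simp)
  constructor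
  · rintro rfl rfl
    refine h2 0 (by simp) ?_
    rw [List.prod_cons, List.prod_singleton, genA_mul]
    exact one_mem _ _
  · intro hne
    by_contra hx'
    refine h2 1 (by simp) ?_
    rw [List.prod_cons, List.prod_singleton]
    exact mul_mem_ball (letter hx hx') (letter hy hne)

theorem last_iff (t : List Grigorchuk) : ∀ x : Grigorchuk, Geo gens (x :: t) →
    ((x :: t).getLast (List.cons_ne_nil _ _) = genA ↔ (x = genA ↔ Odd (t.length + 1))) := by
  induction t with
  | nil => intro x _; simp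
  | cons z t ih =>
    intro x hx
    have h1 : Geo gens (z :: t) := (geo_append (l₁ := [x]) (l₂ := z :: t) hx).2
    have h2 : (x = genA ↔ z ≠ genA) :=
      pair_alt (geo_append (l₁ := [x, z]) (l₂ := t) hx).1
    have h3 := ih z h1
    rw [List.getLast_cons (List.cons_ne_nil z t), h3, h2, List.length_cons]
    have h4 : Odd (t.length + 1 + 1) ↔ ¬ Odd (t.length + 1) := Nat.odd_add_one
    rw [h4]
    tauto

/-- The elements with a geodesic word of length `m` ending in `a`. -/
def EA (m : ℕ) : Set Grigorchuk :=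
  {g | ∃ l, Geo gens (l ++ [genA]) ∧ l.length + 1 = m ∧ g = (l ++ [genA]).prod}

/-- The elements with a geodesic word of length `m` ending in `b`, `c` or `d`. -/
def EV (m : ℕ) : Set Grigorchuk :=
  {g | ∃ l x, x ≠ genA ∧ Geo gens (l ++ [x]) ∧ l.length + 1 = m ∧ g = (l ++ [x]).prod}

theorem EA_finite (m : ℕ) : (EA m).Finite := by
  refine (ball_finite gens_finite m).subset ?_
  rintro g ⟨l, hl, h1, rfl⟩
  exact ⟨_, by simp [h1], hl.1, rfl⟩

theorem EV_finite (m : ℕ) : (EV m).Finite := by
  refine (ball_finite gens_finite m).subset ?_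
  rintro g ⟨l, x, -, hl, h1, rfl⟩
  exact ⟨_, by simp [h1], hl.1, rfl⟩

theorem inv_letter {s : Grigorchuk} (hs : s ∈ gens) : s⁻¹ = s := by
  rw [gens_eq] at hs
  simp only [Set.mem_insert_iff, Set.mem_singleton_iff] at hs
  rcases hs with rfl | rfl | rfl | rfl
  · exact inv_eq_of_mul_eq_one_left genA_mul
  · exact inv_eq_of_mul_eq_one_left genB_mul
  · exact inv_eq_of_mul_eq_one_left genC_mul
  · exact inv_eq_of_mul_eq_one_left genD_mul

theorem rev_prod (l : List Grigorchuk) (h : ∀ s ∈ l, s ∈ gens) : l.reverse.prod = l.prod⁻¹ := by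
  induction l with
  | nil => simp
  | cons x t ih =>
    rw [List.reverse_cons, List.prod_append, List.prod_singleton, List.prod_cons, mul_inv_rev,
      ih fun s hs => h s (by simp [hs]), inv_letter (h x (by simp))]

theorem geo_reverse {l : List Grigorchuk} (h : Geo gens l) : Geo gens l.reverse := by
  refine ⟨fun s hs => h.1 s (by simpa using hs), fun m hm hmem => ?_⟩
  rw [List.length_reverse] at hm
  rw [rev_prod l h.1] at hmem
  have := ball_inv gens_inv hmem
  rw [inv_inv] at this
  exact h.2 m hm this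

theorem inv_EA {m : ℕ} (hm : Even m) {g : Grigorchuk} (hg : g ∈ EA m) : g⁻¹ ∈ EV m := by
  obtain ⟨l, hl, h1, rfl⟩ := hg
  have h2 := geo_reverse hl
  rw [List.reverse_append, List.reverse_singleton, List.singleton_append] at h2
  have h3 := last_iff l.reverse genA h2
  rw [List.length_reverse, h1] at h3
  have h4 : ¬ Odd m := Nat.not_odd_iff_even.2 hm
  have h5 : (genA :: l.reverse).getLast (List.cons_ne_nil _ _) ≠ genA := by
    rw [Ne, h3]
    tauto
  have h6 := List.dropLast_append_getLast (List.cons_ne_nil genA l.reverse)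
  refine ⟨(genA :: l.reverse).dropLast, _, h5, ?_, ?_, ?_⟩
  · rw [h6]
    exact h2
  · rw [List.length_dropLast, List.length_cons, List.length_reverse]
    omega
  · rw [h6, ← rev_prod _ hl.1, List.reverse_append, List.reverse_singleton, List.singleton_append]

theorem inv_EV {m : ℕ} (hm : Even m) {g : Grigorchuk} (hg : g ∈ EV m) : g⁻¹ ∈ EA m := by
  obtain ⟨l, x, hx, hl, h1, rfl⟩ := hg
  have h2 := geo_reverse hl
  rw [List.reverse_append, List.reverse_singleton, List.singleton_append] at h2
  have h3 := last_iff l.reverse x h2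
  rw [List.length_reverse, h1] at h3
  have h4 : ¬ Odd m := Nat.not_odd_iff_even.2 hm
  have h5 : (x :: l.reverse).getLast (List.cons_ne_nil _ _) = genA := by
    rw [h3]
    tauto
  have h6 := List.dropLast_append_getLast (List.cons_ne_nil x l.reverse)
  rw [h5] at h6
  refine ⟨(x :: l.reverse).dropLast, ?_, ?_, ?_⟩
  · rw [h6]
    exact h2
  · rw [List.length_dropLast, List.length_cons, List.length_reverse]
    omega
  · rw [h6, ← rev_prod _ hl.1, List.reverse_append, List.reverse_singleton, List.singleton_append]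

theorem card_EA_le {m : ℕ} (hm : Even m) : (EA m).ncard ≤ (EV m).ncard :=
  Set.ncard_le_ncard_of_injOn (fun g => g⁻¹) (fun _ hg => inv_EA hm hg)
    (fun _ _ _ _ h => inv_injective h) (EV_finite m)

theorem card_EV_le {m : ℕ} (hm : Even m) : (EV m).ncard ≤ (EA m).ncard :=
  Set.ncard_le_ncard_of_injOn (fun g => g⁻¹) (fun _ hg => inv_EV hm hg)
    (fun _ _ _ _ h => inv_injective h) (EA_finite m)

theorem exists_last {l : List Grigorchuk} {n : ℕ} (h : l.length = n + 1) :
    ∃ l' y, l = l' ++ [y] ∧ l'.length = n := by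
  have hne : l ≠ [] := by
    rintro rfl
    simp at h
  refine ⟨l.dropLast, l.getLast hne, (List.dropLast_append_getLast hne).symm, ?_⟩
  rw [List.length_dropLast, h]
  rfl

theorem EV_succ (n : ℕ) : (EV (n + 2)).ncard ≤ 3 * (EA (n + 1)).ncard := by
  have hsub : EV (n + 2) ⊆ (fun p : Grigorchuk × Grigorchuk => p.1 * p.2) ''
      (EA (n + 1) ×ˢ ({genB, genC, genD} : Set Grigorchuk)) := by
    rintro g ⟨l, x, hx, hl, h1, rfl⟩
    obtain ⟨l', y, rfl, h2⟩ := exists_last (l := l) (n := n) (by omega)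
    have h3 : Geo gens (l' ++ [y, x]) := by simpa using hl
    have h4 := (pair_alt (geo_append h3).2).2 hx
    subst h4
    refine ⟨((l' ++ [genA]).prod, x), ⟨⟨l', (geo_append hl).1, by omega, rfl⟩,
      letter (hl.1 x (by simp)) hx⟩, ?_⟩
    show (l' ++ [genA]).prod * x = (l' ++ [genA] ++ [x]).prod
    rw [List.prod_append (l₁ := l' ++ [genA]), List.prod_singleton]
  have hf := (EA_finite (n + 1)).prod (Set.toFinite ({genB, genC, genD} : Set Grigorchuk))
  have h3 : ({genB, genC, genD} : Set Grigorchuk).ncard ≤ 3 := by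
    refine (Set.ncard_insert_le _ _).trans ?_
    have := Set.ncard_insert_le genC ({genD} : Set Grigorchuk)
    rw [Set.ncard_singleton] at this
    omega
  calc (EV (n + 2)).ncard
      ≤ ((fun p : Grigorchuk × Grigorchuk => p.1 * p.2) ''
        (EA (n + 1) ×ˢ ({genB, genC, genD} : Set Grigorchuk))).ncard :=
        Set.ncard_le_ncard hsub (hf.image _)
    _ ≤ (EA (n + 1) ×ˢ ({genB, genC, genD} : Set Grigorchuk)).ncard := Set.ncard_image_le hf
    _ = (EA (n + 1)).ncard * ({genB, genC, genD} : Set Grigorchuk).ncard := Set.ncard_prod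
    _ ≤ (EA (n + 1)).ncard * 3 := Nat.mul_le_mul_left _ h3
    _ = 3 * (EA (n + 1)).ncard := Nat.mul_comm _ _

theorem EA_succ (n : ℕ) : (EA (n + 2)).ncard ≤ (EV (n + 1)).ncard := by
  refine Set.ncard_le_ncard_of_injOn (fun g => g * genA) ?_
    (fun _ _ _ _ h => mul_right_cancel h) (EV_finite _)
  rintro g ⟨l, hl, h1, rfl⟩
  obtain ⟨l', y, rfl, h2⟩ := exists_last (l := l) (n := n) (by omega)
  have h3 : Geo gens (l' ++ [y, genA]) := by simpa using hl
  have h4 : y ≠ genA := fun h => (pair_alt (geo_append h3).2).1 h rfl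
  refine ⟨l', y, h4, (geo_append hl).1, by omega, ?_⟩
  show (l' ++ [y] ++ [genA]).prod * genA = (l' ++ [y]).prod
  rw [List.prod_append (l₁ := l' ++ [y]), List.prod_singleton, mul_assoc, genA_mul, mul_one]

theorem EA_le (n : ℕ) :
    (EA (n + 1)).ncard ≤ {g | g ∈ Ball gens n ∧ g * genA ∉ Ball gens n}.ncard := by
  refine Set.ncard_le_ncard_of_injOn (fun g => g * genA) ?_
    (fun _ _ _ _ h => mul_right_cancel h) ((ball_finite gens_finite n).subset fun g hg => hg.1)
  rintro g ⟨l, hl, h1, rfl⟩
  have e : (l ++ [genA]).prod * genA = l.prod := by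
    rw [List.prod_append, List.prod_singleton, mul_assoc, genA_mul, mul_one]
  refine ⟨?_, ?_⟩
  · show (l ++ [genA]).prod * genA ∈ Ball gens n
    rw [e]
    exact ⟨l, by omega, (geo_append hl).1.1, rfl⟩
  · show (l ++ [genA]).prod * genA * genA ∉ Ball gens n
    rw [mul_assoc, genA_mul, mul_one]
    refine hl.2 n ?_
    rw [List.length_append, List.length_singleton]
    omega

theorem sphere_six (n : ℕ) : (Ball gens (n + 2) \ Ball gens (n + 1)).ncard ≤
    6 * {g | g ∈ Ball gens n ∧ g * genA ∉ Ball gens n}.ncard := by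
  have hsub : Ball gens (n + 2) \ Ball gens (n + 1) ⊆ EA (n + 2) ∪ EV (n + 2) := by
    intro g hg
    obtain ⟨l, hl, h1, rfl⟩ := geo_of_sphere hg
    obtain ⟨l', y, rfl, h2⟩ := exists_last (l := l) (n := n + 1) (by omega)
    by_cases hy : y = genA
    · subst hy
      exact Or.inl ⟨l', hl, by omega, rfl⟩
    · exact Or.inr ⟨l', y, hy, hl, by omega, rfl⟩
  have h1 := (Set.ncard_le_ncard hsub ((EA_finite _).union (EV_finite _))).trans
    (Set.ncard_union_le _ _)
  have h2 := EV_succ n
  have h3 := EA_succ n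
  have h4 := EA_le n
  rcases Nat.even_or_odd n with hn | hn
  · have h5 := card_EA_le (m := n + 2) (by simpa [Nat.even_add] using hn)
    omega
  · have h5 := card_EV_le (m := n + 1) hn.add_one
    omega

/-- The two bounds for the first Grigorchuk group. -/
theorem two_bounds (n : ℕ) :
    defect gens genA n ≤ ratio gens n - 1 ∧ ratio gens (n + 1) - 1 ≤ 6 * defect gens genA n := by
  refine ⟨defect_gen gens_finite (by rw [gens_eq]; simp) n, ?_⟩
  rw [ratio, ratio_sub gens_finite, div_le_iff₀ (card_pos gens_finite (n + 1))]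
  have h1 : ((Ball gens (n + 1 + 1) \ Ball gens (n + 1)).ncard : ℝ) ≤
      6 * ({g | g ∈ Ball gens n ∧ g * genA ∉ Ball gens n}.ncard : ℝ) := by
    exact_mod_cast sphere_six n
  have h2 : ((Ball gens n).ncard : ℝ) ≤ ((Ball gens (n + 1)).ncard : ℝ) := by
    exact_mod_cast Set.ncard_le_ncard (ball_mono gens (Nat.le_succ n))
      (ball_finite gens_finite (n + 1))
  have h3 : ({g | g ∈ Ball gens n ∧ g * genA ∉ Ball gens n}.ncard : ℝ) =
      defect gens genA n * ((Ball gens n).ncard : ℝ) := by
    rw [defect, div_mul_cancel₀ _ (card_pos gens_finite n).ne']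
  rw [h3] at h1
  have h4 := mul_le_mul_of_nonneg_left h2 (defect_nonneg gens genA n)
  linarith

theorem ratio_of_genA_gaps {A : Set ℕ} (hA : BoundedGaps A)
    (h : Tendsto (defect gens genA) (atTop ⊓ 𝓟 A) (𝓝 0)) : RatioOne gens atTop := by
  refine ratio_of_gaps gens_finite hA (fun n => 6 * defect gens genA n) 1
    (fun n => (two_bounds n).2) ?_
  have := h.const_mul 6
  simpa using this

theorem ratio_of_pair {x y : Grigorchuk} (hx : x ∈ ({genB, genC, genD} : Set Grigorchuk))
    (hy : y ∈ ({genB, genC, genD} : Set Grigorchuk)) (hxy : x ≠ y)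
    (h1 : x ∈ Almost gens atTop) (h2 : y ∈ Almost gens atTop) : RatioOne gens atTop := by
  have h3 : x * y ∈ Almost gens atTop := (almost gens gens_finite atTop).mul_mem h1 h2
  obtain ⟨⟨e1, e2⟩, ⟨e3, e4⟩, e5, e6⟩ := gen_mul
  have hall : ({genB, genC, genD} : Set Grigorchuk) ⊆ Almost gens atTop := by
    simp only [Set.mem_insert_iff, Set.mem_singleton_iff] at hx hy
    intro z hz
    simp only [Set.mem_insert_iff, Set.mem_singleton_iff] at hz
    rcases hx with rfl | rfl | rfl <;> rcases hy with rfl | rfl | rfl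
    · exact absurd rfl hxy
    · rw [e1] at h3
      rcases hz with rfl | rfl | rfl <;> assumption
    · rw [e5] at h3
      rcases hz with rfl | rfl | rfl <;> assumption
    · rw [e2] at h3
      rcases hz with rfl | rfl | rfl <;> assumption
    · exact absurd rfl hxy
    · rw [e3] at h3
      rcases hz with rfl | rfl | rfl <;> assumption
    · rw [e6] at h3
      rcases hz with rfl | rfl | rfl <;> assumption
    · rw [e4] at h3
      rcases hz with rfl | rfl | rfl <;> assumption
    · exact absurd rfl hxy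
  refine ratio_of_generators gens_finite _ hall (k := 2) fun l h1 h2 => ?_
  obtain ⟨u, v, rfl⟩ := List.length_eq_two.1 h1
  have hu := h2 u (by simp)
  have hv := h2 v (by simp)
  rw [gens_eq, Set.mem_insert_iff] at hu hv
  have eu := hu.1.resolve_right hu.2
  have ev := hv.1.resolve_right hv.2
  refine ⟨0, by norm_num, ?_⟩
  subst eu
  subst ev
  rw [List.prod_cons, List.prod_singleton, genA_mul]
  exact one_mem _ _

/-- The four letters. -/
inductive Letter
  | a
  | b
  | c
  | d
  deriving DecidableEq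

instance : Fintype Letter :=
  ⟨{Letter.a, Letter.b, Letter.c, Letter.d}, fun x => by cases x <;> simp⟩

namespace Letter

/-- The generator named by a letter. -/
def gen : Letter → Grigorchuk
  | a => genA
  | b => genB
  | c => genC
  | d => genD

/-- The weight of a letter. -/
def wt : Letter → ℕ
  | a => 3
  | b => 4
  | c => 3
  | d => 2

/-- The action of a letter on the first letter of a word. -/
def first : Letter → Bool → Bool
  | a, x => !x
  | _, x => x

/-- The section of a letter. -/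
def sec : Letter → Bool → List Letter
  | a, _ => []
  | b, false => [a]
  | b, true => [c]
  | c, false => [a]
  | c, true => [d]
  | d, false => []
  | d, true => [b]

end Letter

/-- The weight of a word. -/
def wt (w : List Letter) : ℕ := (w.map Letter.wt).sum

/-- The element of a word. -/
def ev (w : List Letter) : Grigorchuk := (w.map Letter.gen).prod

/-- The action of a word on the first letter. -/
def first : List Letter → Bool → Bool
  | [], x => x
  | s :: w, x => s.first (first w x)

/-- The section of a word. -/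
def sec : List Letter → Bool → List Letter
  | [], _ => []
  | s :: w, x => s.sec (first w x) ++ sec w x

theorem wt_nil : wt [] = 0 := rfl

theorem wt_cons (s : Letter) (w : List Letter) : wt (s :: w) = s.wt + wt w := by
  simp [wt]

theorem wt_append (u v : List Letter) : wt (u ++ v) = wt u + wt v := by
  simp [wt]

theorem ev_cons (s : Letter) (w : List Letter) : ev (s :: w) = s.gen * ev w := by
  simp [ev]

theorem ev_append (u v : List Letter) : ev (u ++ v) = ev u * ev v := by
  simp [ev]

theorem ev_nil : ev [] = 1 := rfl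

theorem ev_single (s : Letter) : ev [s] = s.gen := by
  simp [ev]

theorem gen_apply_nil (s : Letter) : ((s.gen : Grigorchuk) : Equiv.Perm (List Bool)) [] = [] := by
  cases s
  · show actA [] = []
    simp [actA]
  · show actB [] = []
    simp [actB]
  · show actC [] = []
    simp [actC]
  · show actD [] = []
    simp [actD]

theorem gen_apply_cons (s : Letter) (x : Bool) (y : List Bool) :
    ((s.gen : Grigorchuk) : Equiv.Perm (List Bool)) (x :: y) =
      s.first x :: ((ev (s.sec x) : Grigorchuk) : Equiv.Perm (List Bool)) y := by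
  cases s <;> cases x
  · show actA (false :: y) = true :: y
    simp [actA]
  · show actA (true :: y) = false :: y
    simp [actA]
  · show actB (false :: y) = false :: ((ev [Letter.a] : Grigorchuk) : Equiv.Perm (List Bool)) y
    rw [ev_single, actB]
    rfl
  · show actB (true :: y) = true :: ((ev [Letter.c] : Grigorchuk) : Equiv.Perm (List Bool)) y
    rw [ev_single, actB]
    rfl
  · show actC (false :: y) = false :: ((ev [Letter.a] : Grigorchuk) : Equiv.Perm (List Bool)) y
    rw [ev_single, actC]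
    rfl
  · show actC (true :: y) = true :: ((ev [Letter.d] : Grigorchuk) : Equiv.Perm (List Bool)) y
    rw [ev_single, actC]
    rfl
  · show actD (false :: y) = false :: y
    rw [actD]
  · show actD (true :: y) = true :: ((ev [Letter.b] : Grigorchuk) : Equiv.Perm (List Bool)) y
    rw [ev_single, actD]
    rfl

theorem ev_apply_nil (w : List Letter) :
    ((ev w : Grigorchuk) : Equiv.Perm (List Bool)) [] = [] := by
  induction w with
  | nil => rfl
  | cons s w ih =>
    rw [ev_cons, Subgroup.coe_mul, Equiv.Perm.mul_apply, ih, gen_apply_nil]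

theorem ev_apply_cons (w : List Letter) (x : Bool) (y : List Bool) :
    ((ev w : Grigorchuk) : Equiv.Perm (List Bool)) (x :: y) =
      first w x :: ((ev (sec w x) : Grigorchuk) : Equiv.Perm (List Bool)) y := by
  induction w with
  | nil => rfl
  | cons s w ih =>
    rw [ev_cons, Subgroup.coe_mul, Equiv.Perm.mul_apply, ih, gen_apply_cons, first, sec, ev_append,
      Subgroup.coe_mul, Equiv.Perm.mul_apply]

theorem first_true (w : List Letter) : first w true = !(first w false) := by
  induction w with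
  | nil => rfl
  | cons s w ih =>
    rw [first, first, ih]
    cases s <;> simp [Letter.first]

theorem ev_ext {w v : List Letter} (h1 : first w false = first v false)
    (h2 : ev (sec w false) = ev (sec v false)) (h3 : ev (sec w true) = ev (sec v true)) :
    ev w = ev v := by
  apply Subtype.ext
  apply Equiv.ext
  intro y
  cases y with
  | nil => rw [ev_apply_nil, ev_apply_nil]
  | cons x y =>
    rw [ev_apply_cons, ev_apply_cons]
    cases x with
    | false => rw [h1, h2]
    | true => rw [first_true, first_true, h1, h3]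

/-- Words of least weight. -/
def IsMin (w : List Letter) : Prop := ∀ v, ev v = ev w → wt w ≤ wt v

theorem isMin_right {u v : List Letter} (h : IsMin (u ++ v)) : IsMin v := by
  intro v' hv
  have := h (u ++ v') (by rw [ev_append, ev_append, hv])
  rw [wt_append, wt_append] at this
  omega

theorem isMin_left {u v : List Letter} (h : IsMin (u ++ v)) : IsMin u := by
  intro u' hu
  have := h (u' ++ v) (by rw [ev_append, ev_append, hu])
  rw [wt_append, wt_append] at this
  omega

theorem isMin_pair {s t : Letter} (h : IsMin [s, t]) (hs : s ≠ Letter.a) : t = Letter.a := by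
  obtain ⟨⟨e1, e2⟩, ⟨e3, e4⟩, e5, e6⟩ := gen_mul
  have e : ev [s, t] = s.gen * t.gen := by rw [ev_cons, ev_single]
  cases s <;> cases t
  · exact absurd rfl hs
  · exact absurd rfl hs
  · exact absurd rfl hs
  · exact absurd rfl hs
  · rfl
  · have := h [] (by rw [e, ev_nil]; exact genB_mul.symm)
    simp [wt, Letter.wt] at this
  · have := h [Letter.d] (by rw [e, ev_single]; exact e1.symm)
    simp [wt, Letter.wt] at this
  · have := h [Letter.c] (by rw [e, ev_single]; exact e5.symm)
    simp [wt, Letter.wt] at this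
  · rfl
  · have := h [Letter.d] (by rw [e, ev_single]; exact e2.symm)
    simp [wt, Letter.wt] at this
  · have := h [] (by rw [e, ev_nil]; exact genC_mul.symm)
    simp [wt, Letter.wt] at this
  · have := h [Letter.b] (by rw [e, ev_single]; exact e3.symm)
    simp [wt, Letter.wt] at this
  · rfl
  · have := h [Letter.c] (by rw [e, ev_single]; exact e6.symm)
    simp [wt, Letter.wt] at this
  · have := h [Letter.b] (by rw [e, ev_single]; exact e4.symm)
    simp [wt, Letter.wt] at this
  · have := h [] (by rw [e, ev_nil]; exact genD_mul.symm)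
    simp [wt, Letter.wt] at this

theorem sec_weight (w : List Letter) (h : IsMin w) :
    7 * (wt (sec w false) + wt (sec w true)) ≤ 6 * wt w + 18 ∧
      ∀ t, w = Letter.a :: t → 7 * (wt (sec w false) + wt (sec w true)) ≤ 6 * wt w := by
  induction w with
  | nil =>
    refine ⟨by simp [sec, wt], fun t ht => ?_⟩
    simp at ht
  | cons s t ih =>
    have ht : IsMin t := isMin_right (u := [s]) (v := t) h
    obtain ⟨h1, h2⟩ := ih ht
    rw [sec, sec, wt_append, wt_append, wt_cons, first_true]
    cases t with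
    | nil =>
      cases s <;> simp [sec, first, Letter.sec, wt, Letter.wt]
    | cons u t =>
      by_cases hs : s = Letter.a
      · subst hs
        have e1 : ∀ x, wt (Letter.sec Letter.a x) = 0 := fun x => rfl
        rw [e1, e1]
        have e2 : Letter.wt Letter.a = 3 := rfl
        rw [e2]
        refine ⟨by omega, fun _ _ => by omega⟩
      · have hu : u = Letter.a := isMin_pair (isMin_left (u := [s, u]) (v := t) h) hs
        have h3 := h2 t (by rw [hu])
        refine ⟨?_, fun t' ht' => absurd (List.cons.inj ht').1 hs⟩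
        cases s
        · exact absurd rfl hs
        · cases hf : first (u :: t) false <;> simp [Letter.sec, wt, Letter.wt] at h3 ⊢ <;> omega
        · cases hf : first (u :: t) false <;> simp [Letter.sec, wt, Letter.wt] at h3 ⊢ <;> omega
        · cases hf : first (u :: t) false <;> simp [Letter.sec, wt, Letter.wt] at h3 ⊢ <;> omega

theorem exists_word {l : List Grigorchuk} (h : ∀ s ∈ l, s ∈ gens) :
    ∃ w : List Letter, ev w = l.prod ∧ w.length = l.length := by
  induction l with
  | nil => exact ⟨[], rfl, rfl⟩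
  | cons x l ih =>
    obtain ⟨w, h1, h2⟩ := ih fun s hs => h s (by simp [hs])
    have hx := h x (by simp)
    rw [gens_eq] at hx
    simp only [Set.mem_insert_iff, Set.mem_singleton_iff] at hx
    have : ∃ s : Letter, s.gen = x := by
      rcases hx with rfl | rfl | rfl | rfl
      · exact ⟨Letter.a, rfl⟩
      · exact ⟨Letter.b, rfl⟩
      · exact ⟨Letter.c, rfl⟩
      · exact ⟨Letter.d, rfl⟩
    obtain ⟨s, rfl⟩ := this
    exact ⟨s :: w, by rw [ev_cons, h1, List.prod_cons], by simp [h2]⟩

theorem wt_le (w : List Letter) : wt w ≤ 4 * w.length := by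
  induction w with
  | nil => simp [wt]
  | cons s w ih =>
    rw [wt_cons, List.length_cons]
    have : s.wt ≤ 4 := by cases s <;> simp [Letter.wt]
    omega

theorem length_le (w : List Letter) : w.length ≤ wt w := by
  induction w with
  | nil => simp
  | cons s w ih =>
    rw [wt_cons, List.length_cons]
    have : 1 ≤ s.wt := by cases s <;> simp [Letter.wt]
    omega

theorem exists_ev (g : Grigorchuk) : ∃ w, ev w = g := by
  obtain ⟨n, l, h1, h2, h3⟩ := exists_ball gens_inv gens_closure g
  obtain ⟨w, hw, -⟩ := exists_word h2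
  exact ⟨w, by rw [hw, h3]⟩

/-- The least weight of a word for `g`. -/
noncomputable def least (g : Grigorchuk) : ℕ := sInf {n | ∃ w, ev w = g ∧ wt w = n}

theorem exists_min (g : Grigorchuk) : ∃ w, ev w = g ∧ wt w = least g := by
  obtain ⟨w, hw⟩ := exists_ev g
  exact Nat.sInf_mem (s := {n | ∃ w, ev w = g ∧ wt w = n}) ⟨wt w, w, hw, rfl⟩

theorem least_le (w : List Letter) : least (ev w) ≤ wt w := Nat.sInf_le ⟨w, rfl, rfl⟩

theorem isMin_of {w : List Letter} (h : wt w = least (ev w)) : IsMin w := fun v hv => by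
  rw [h, ← hv]
  exact least_le v

theorem least_of {w : List Letter} (h : IsMin w) : least (ev w) = wt w := by
  obtain ⟨v, h1, h2⟩ := exists_min (ev w)
  have h3 := h v h1
  have h4 := least_le w
  omega

theorem gen_mem (s : Letter) : s.gen ∈ gens := by
  rw [gens_eq]
  cases s <;> simp [Letter.gen]

theorem least_finite (n : ℕ) : {g : Grigorchuk | least g ≤ n}.Finite := by
  refine (ball_finite gens_finite n).subset ?_
  intro g hg
  obtain ⟨w, rfl, h2⟩ := exists_min g
  refine ⟨w.map Letter.gen, ?_, ?_, rfl⟩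
  · rw [List.length_map]
    have := length_le w
    have h3 : least (ev w) ≤ n := hg
    omega
  · intro s hs
    obtain ⟨t, -, rfl⟩ := List.mem_map.1 hs
    exact gen_mem t

/-- The elements of weight at most `n`. -/
noncomputable def AF (n : ℕ) : Finset Grigorchuk := (least_finite n).toFinset

theorem mem_AF {n : ℕ} {g : Grigorchuk} : g ∈ AF n ↔ least g ≤ n := by
  rw [AF, Set.Finite.mem_toFinset]
  rfl

/-- The generating sum. -/
noncomputable def Z (n : ℕ) (q : ℝ) : ℝ := ∑ g ∈ AF n, q ^ least g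

theorem Z_nonneg (n : ℕ) {q : ℝ} (hq : 0 ≤ q) : 0 ≤ Z n q :=
  Finset.sum_nonneg fun _ _ => pow_nonneg hq _

theorem Z_mono {n m : ℕ} (h : n ≤ m) {q : ℝ} (hq : 0 ≤ q) : Z n q ≤ Z m q :=
  Finset.sum_le_sum_of_subset_of_nonneg (fun g hg => mem_AF.2 ((mem_AF.1 hg).trans h))
    fun _ _ _ => pow_nonneg hq _

theorem Z_mono' (n : ℕ) {q r : ℝ} (hq : 0 ≤ q) (h : q ≤ r) : Z n q ≤ Z n r :=
  Finset.sum_le_sum fun _ _ => pow_le_pow_left₀ hq h _

theorem sum_le_of_inj {α β : Type} (s : Finset α) (t : Finset β) (f : α → ℝ)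
    (F : β → ℝ) (hF : ∀ b ∈ t, 0 ≤ F b) (φ : α → β) (hφ : ∀ a ∈ s, φ a ∈ t)
    (hinj : Set.InjOn φ s) (hle : ∀ a ∈ s, f a ≤ F (φ a)) : ∑ a ∈ s, f a ≤ ∑ b ∈ t, F b := by
  classical
  calc ∑ a ∈ s, f a ≤ ∑ a ∈ s, F (φ a) := Finset.sum_le_sum hle
    _ = ∑ b ∈ s.image φ, F b := (Finset.sum_image hinj).symm
    _ ≤ ∑ b ∈ t, F b := by
      refine Finset.sum_le_sum_of_subset_of_nonneg ?_ fun b hb _ => hF b hb
      intro b hb
      obtain ⟨a, ha, rfl⟩ := Finset.mem_image.1 hb
      exact hφ a ha

theorem Z_half (n : ℕ) : Z n (1 / 2) ≤ 16 / 7 := by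
  classical
  have h1 : ∀ g : Grigorchuk, ∃ p : Letter × Grigorchuk,
      g ≠ 1 → (p.1.gen * p.2 = g ∧ least g = p.1.wt + least p.2) := by
    intro g
    obtain ⟨w, hw, hm⟩ := exists_min g
    subst hw
    have hmin := isMin_of hm
    cases w with
    | nil => exact ⟨(Letter.a, 1), fun h => absurd ev_nil h⟩
    | cons s t =>
      refine ⟨(s, ev t), fun _ => ⟨(ev_cons s t).symm, ?_⟩⟩
      rw [least_of hmin, least_of (isMin_right (u := [s]) (v := t) hmin), wt_cons]
  choose φ hφ using h1
  have hone : least (1 : Grigorchuk) = 0 := by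
    have := least_le []
    rw [ev_nil, wt_nil] at this
    omega
  have hmem : (1 : Grigorchuk) ∈ AF n := mem_AF.2 (by rw [hone]; exact Nat.zero_le n)
  have h2 : ∑ g ∈ (AF n).erase 1, ((1 : ℝ) / 2) ^ least g ≤
      ∑ p ∈ (Finset.univ : Finset Letter) ×ˢ AF n, ((1 : ℝ) / 2) ^ p.1.wt * (1 / 2) ^ least p.2 := by
    refine sum_le_of_inj _ _ _ _ (fun _ _ => by positivity) φ (fun g hg => ?_) ?_ fun g hg => ?_
    · rw [Finset.mem_erase, mem_AF] at hg
      have := (hφ g hg.1).2
      exact Finset.mem_product.2 ⟨Finset.mem_univ _, mem_AF.2 (by omega)⟩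
    · intro g hg g' hg' h
      have e1 := (hφ g (Finset.ne_of_mem_erase hg)).1
      have e2 := (hφ g' (Finset.ne_of_mem_erase hg')).1
      rw [← e1, ← e2, h]
    · have e1 := (hφ g (Finset.ne_of_mem_erase hg)).2
      rw [e1, pow_add]
  have h3 : ∑ p ∈ (Finset.univ : Finset Letter) ×ˢ AF n,
      ((1 : ℝ) / 2) ^ p.1.wt * (1 / 2) ^ least p.2 = 9 / 16 * Z n (1 / 2) := by
    rw [Finset.sum_product]
    simp only [← Finset.mul_sum]
    rw [← Finset.sum_mul]
    have h4 : ∑ s : Letter, ((1 : ℝ) / 2) ^ s.wt = 9 / 16 := by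
      show ∑ s ∈ ({Letter.a, Letter.b, Letter.c, Letter.d} : Finset Letter), ((1 : ℝ) / 2) ^ s.wt
        = 9 / 16
      rw [Finset.sum_insert (by decide), Finset.sum_insert (by decide),
        Finset.sum_insert (by decide), Finset.sum_singleton]
      norm_num [Letter.wt]
    rw [h4]
    rfl
  have h5 : Z n (1 / 2) = 1 + ∑ g ∈ (AF n).erase 1, ((1 : ℝ) / 2) ^ least g := by
    rw [Z, ← Finset.add_sum_erase _ _ hmem, hone, pow_zero]
  rw [h3] at h2
  linarith

theorem Z_step {q : ℝ} (hq0 : 0 < q) (hq1 : q ≤ 1) {n : ℕ} (hn : 18 ≤ n) :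
    Z n (q ^ 6) ≤ 2 * (q ^ 18)⁻¹ * Z n (q ^ 7) ^ 2 := by
  classical
  choose m hm1 hm2 using exists_min
  have hw : ∀ g, 7 * (least (ev (sec (m g) false)) + least (ev (sec (m g) true))) ≤
      6 * least g + 18 := by
    intro g
    have hmin : IsMin (m g) := isMin_of (by rw [hm2, hm1])
    have h1 := (sec_weight (m g) hmin).1
    have h2 := least_le (sec (m g) false)
    have h3 := least_le (sec (m g) true)
    rw [hm2] at h1
    omega
  have h1 : Z n (q ^ 6) ≤ ∑ p ∈ (Finset.univ : Finset Bool) ×ˢ (AF n ×ˢ AF n),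
      (q ^ 18)⁻¹ * ((q ^ 7) ^ least p.2.1 * (q ^ 7) ^ least p.2.2) := by
    refine sum_le_of_inj _ _ _ _ (fun _ _ => by positivity)
      (fun g => (first (m g) false, ev (sec (m g) false), ev (sec (m g) true)))
      (fun g hg => ?_) ?_ fun g hg => ?_
    · have h2 := hw g
      rw [mem_AF] at hg
      have h3 : least (ev (sec (m g) false)) ≤ n := by omega
      have h4 : least (ev (sec (m g) true)) ≤ n := by omega
      exact Finset.mem_product.2 ⟨Finset.mem_univ _, Finset.mem_product.2
        ⟨mem_AF.2 h3, mem_AF.2 h4⟩⟩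
    · intro g _ g' _ h
      simp only [Prod.mk.injEq] at h
      rw [← hm1 g, ← hm1 g']
      exact ev_ext h.1 h.2.1 h.2.2
    · show (q ^ 6) ^ least g ≤ (q ^ 18)⁻¹ * ((q ^ 7) ^ least (ev (sec (m g) false)) *
        (q ^ 7) ^ least (ev (sec (m g) true)))
      rw [le_inv_mul_iff₀ (by positivity), ← pow_mul, ← pow_mul, ← pow_mul, ← pow_add, ← pow_add]
      refine pow_le_pow_of_le_one hq0.le hq1 ?_
      have := hw g
      omega
  refine h1.trans (le_of_eq ?_)
  have h2 : ∑ p ∈ AF n ×ˢ AF n, ((q ^ 7) ^ least p.1 * (q ^ 7) ^ least p.2) = Z n (q ^ 7) ^ 2 := by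
    rw [Finset.sum_product, sq, Z, Finset.sum_mul_sum]
  rw [Finset.sum_product]
  simp only [← Finset.mul_sum]
  rw [h2, Finset.sum_const, Finset.card_univ, Fintype.card_bool]
  simp only [nsmul_eq_mul]
  push_cast
  ring

/-- The generating sums stay bounded. -/
def Good (q : ℝ) : Prop := ∃ C, ∀ n, Z n q ≤ C

theorem good_step {q : ℝ} (hq0 : 0 < q) (hq1 : q ≤ 1) (h : Good (q ^ 7)) : Good (q ^ 6) := by
  obtain ⟨C, hC⟩ := h
  refine ⟨2 * (q ^ 18)⁻¹ * C ^ 2, fun n => ?_⟩
  have h1 : Z n (q ^ 6) ≤ Z (n + 18) (q ^ 6) := Z_mono (Nat.le_add_right n 18) (by positivity)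
  refine h1.trans ((Z_step hq0 hq1 (Nat.le_add_left 18 n)).trans ?_)
  refine mul_le_mul_of_nonneg_left ?_ (by positivity)
  exact pow_le_pow_left₀ (Z_nonneg _ (by positivity)) (hC _) 2

theorem good_exp {t : ℝ} (ht : 0 ≤ t) (h : Good (Real.exp (-t))) :
    Good (Real.exp (-(6 / 7 * t))) := by
  have h1 : Good (Real.exp (-(t / 7)) ^ 6) := by
    refine good_step (Real.exp_pos _) (Real.exp_le_one_iff.2 (by linarith)) ?_
    rw [← Real.exp_nat_mul]
    convert h using 2
    push_cast
    ring
  rw [← Real.exp_nat_mul] at h1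
  convert h1 using 2
  push_cast
  ring

theorem good_pow (k : ℕ) : Good (Real.exp (-((6 / 7) ^ k * Real.log 2))) := by
  induction k with
  | zero =>
    refine ⟨16 / 7, fun n => ?_⟩
    rw [pow_zero, one_mul, Real.exp_neg, Real.exp_log (by norm_num)]
    have := Z_half n
    rwa [one_div] at this
  | succ k ih =>
    have h1 : 0 ≤ (6 / 7 : ℝ) ^ k * Real.log 2 :=
      mul_nonneg (by positivity) (Real.log_nonneg (by norm_num))
    have h2 := good_exp h1 ih
    convert h2 using 2
    ring

/-- The growth of the first Grigorchuk group is subexponential. -/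
theorem subexponential : Subexponential gens := by
  intro c hc
  have hlc : 0 < Real.log c := Real.log_pos hc
  set t : ℝ := Real.log c / 8 with ht
  have htp : 0 < t := by positivity
  obtain ⟨k, hk⟩ : ∃ k : ℕ, (6 / 7 : ℝ) ^ k * Real.log 2 ≤ t := by
    have h1 : Tendsto (fun k : ℕ => (6 / 7 : ℝ) ^ k * Real.log 2) atTop (𝓝 (0 * Real.log 2)) :=
      (tendsto_pow_atTop_nhds_zero_of_lt_one (by norm_num) (by norm_num)).mul_const _
    rw [zero_mul] at h1
    exact ((h1.eventually (gt_mem_nhds htp)).mono fun k hk => hk.le).exists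
  obtain ⟨C, hC⟩ := good_pow k
  have hq : Real.exp (-t) ≤ Real.exp (-((6 / 7) ^ k * Real.log 2)) :=
    Real.exp_le_exp.2 (by linarith)
  have h1 : ∀ n, ((Ball gens n).ncard : ℝ) * Real.exp (-t) ^ (4 * n) ≤ C := by
    intro n
    have hf := ball_finite gens_finite n
    have hsub : hf.toFinset ⊆ AF (4 * n) := by
      intro g hg
      obtain ⟨l, a1, a2, rfl⟩ := (Set.Finite.mem_toFinset hf).1 hg
      obtain ⟨w, b1, b2⟩ := exists_word a2
      rw [mem_AF, ← b1]
      have b3 := least_le w
      have b4 := wt_le w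
      omega
    calc ((Ball gens n).ncard : ℝ) * Real.exp (-t) ^ (4 * n)
        = ∑ _g ∈ hf.toFinset, Real.exp (-t) ^ (4 * n) := by
          rw [Finset.sum_const, nsmul_eq_mul, Set.ncard_eq_toFinset_card _ hf]
      _ ≤ ∑ g ∈ hf.toFinset, Real.exp (-t) ^ least g := by
          refine Finset.sum_le_sum fun g hg => ?_
          exact pow_le_pow_of_le_one (Real.exp_pos _).le
            (Real.exp_le_one_iff.2 (by linarith)) (mem_AF.1 (hsub hg))
      _ ≤ Z (4 * n) (Real.exp (-t)) :=
          Finset.sum_le_sum_of_subset_of_nonneg hsub fun _ _ _ => pow_nonneg (Real.exp_pos _).le _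
      _ ≤ Z (4 * n) (Real.exp (-((6 / 7) ^ k * Real.log 2))) := Z_mono' _ (Real.exp_pos _).le hq
      _ ≤ C := hC _
  have h2 : Tendsto (fun n : ℕ => Real.exp (4 * t) ^ n) atTop atTop :=
    tendsto_pow_atTop_atTop_of_one_lt (Real.one_lt_exp_iff.2 (by linarith))
  filter_upwards [h2.eventually (eventually_ge_atTop C)] with n hn
  have h3 := h1 n
  have e1 : Real.exp (-t) ^ (4 * n) = (Real.exp (4 * t) ^ n)⁻¹ := by
    rw [← Real.exp_nat_mul, ← Real.exp_nat_mul, ← Real.exp_neg]
    congr 1
    push_cast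
    ring
  have hp : 0 < Real.exp (4 * t) ^ n := pow_pos (Real.exp_pos _) n
  rw [e1, ← div_eq_mul_inv, div_le_iff₀ hp] at h3
  refine h3.trans ((mul_le_mul_of_nonneg_right hn hp.le).trans (le_of_eq ?_))
  have e2 : Real.exp (4 * t) * Real.exp (4 * t) = c := by
    rw [← Real.exp_add, show 4 * t + 4 * t = Real.log c by rw [ht]; ring,
      Real.exp_log (by linarith)]
  rw [← mul_pow, e2]

/-- **Criterion for `γ (n + 1) / γ n → 1` by elements which almost preserve the balls.**
For the first Grigorchuk group with its generators `a`, `b`, `c`, `d` and `r n = γ (n + 1) / γ n`: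
1. `#(B(n) a ∖ B(n)) / γ n ≤ r n - 1` and `r (n + 1) - 1 ≤ 6 #(B(n) a ∖ B(n)) / γ n`;
2. hence, for every set `A` of integers with bounded gaps, `r n` converges if and only if
`r n → 1`, if and only if `#(B(n) a ∖ B(n)) / γ n → 0` along `A`;
3. `r n → 1` if and only if two given ones of `b`, `c`, `d` almost preserve the balls.
For every group `G` with a finite symmetric generating set `S` (such as the one above):
4. along any filter `F ≤ atTop` the elements which almost preserve the balls form a subgroup `H`,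
and `r n → 1` along `F` if and only if `H` has finite index, if and only if `H = G`;
5. `r n → 1` if and only if `r n → 1` along some given set with bounded gaps;
6. `r n → 1` if and only if, for some `k`, every geodesic word of length `k` has a nonempty subword
whose product almost preserves the balls;
7. if every nontrivial normal subgroup of `G` has finite index, then for every `h ≠ 1` there are
finitely many conjugates of `h` such that, for every `F ≤ atTop`, `r n → 1` along `F` if and only if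
they almost preserve the balls along `F`. -/
theorem result :
    ((∀ n : ℕ, defect gens genA n ≤ ratio gens n - 1 ∧
        ratio gens (n + 1) - 1 ≤ 6 * defect gens genA n) ∧
      (∀ A : Set ℕ, BoundedGaps A →
        (RatioOne gens atTop ↔ Tendsto (defect gens genA) (atTop ⊓ 𝓟 A) (𝓝 0)) ∧
        ((∃ L : ℝ, Tendsto (ratio gens) atTop (𝓝 L)) ↔
          Tendsto (defect gens genA) (atTop ⊓ 𝓟 A) (𝓝 0))) ∧
      (∀ x ∈ ({genB, genC, genD} : Set Grigorchuk), ∀ y ∈ ({genB, genC, genD} : Set Grigorchuk),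
        x ≠ y → (RatioOne gens atTop ↔ x ∈ Almost gens atTop ∧ y ∈ Almost gens atTop)) ∧
      gens.Finite ∧ (∀ s ∈ gens, s⁻¹ ∈ gens) ∧ Subgroup.closure gens = ⊤) ∧
    (∀ (G : Type) [Group G] (S : Set G), S.Finite → (∀ s ∈ S, s⁻¹ ∈ S) → Subgroup.closure S = ⊤ →
      (∀ F : Filter ℕ, F ≤ atTop → ∃ H : Subgroup G, (H : Set G) = Almost S F ∧
        (RatioOne S F ↔ H.FiniteIndex) ∧ (RatioOne S F ↔ H = ⊤)) ∧
      (∀ A : Set ℕ, BoundedGaps A → (RatioOne S atTop ↔ RatioOne S (atTop ⊓ 𝓟 A))) ∧
      (RatioOne S atTop ↔ ∃ k : ℕ, ∀ l : List G, l.length = k → (∀ s ∈ l, s ∈ S) →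
        (∀ m < k, l.prod ∉ Ball S m) →
          ∃ l₁ l₂ l₃ : List G, l = l₁ ++ (l₂ ++ l₃) ∧ l₂ ≠ [] ∧ l₂.prod ∈ Almost S atTop) ∧
      ((∀ N : Subgroup G, N.Normal → N ≠ ⊥ → N.FiniteIndex) → ∀ h : G, h ≠ 1 →
        ∃ T : Set G, T.Finite ∧ (∀ t ∈ T, ∃ x : G, t = x * h * x⁻¹) ∧
          ∀ F : Filter ℕ, F ≤ atTop → (RatioOne S F ↔ T ⊆ Almost S F))) := by
  have hmem : RatioOne gens atTop → ∀ g : Grigorchuk, g ∈ Almost gens atTop := by
    intro h g
    have h1 : g ∈ almost gens gens_finite atTop := by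
      rw [top_of_ratio gens_finite gens_closure h]
      exact Subgroup.mem_top _
    exact h1
  have hgaps : ∀ A : Set ℕ, BoundedGaps A →
      (RatioOne gens atTop ↔ Tendsto (defect gens genA) (atTop ⊓ 𝓟 A) (𝓝 0)) := fun A hA =>
    ⟨fun h => Tendsto.mono_left (hmem h genA) inf_le_left, fun h => ratio_of_genA_gaps hA h⟩
  refine ⟨⟨two_bounds, fun A hA => ⟨hgaps A hA, ?_, fun h => ?_⟩,
    fun x hx y hy hxy => ⟨fun h => ⟨hmem h x, hmem h y⟩, fun h => ratio_of_pair hx hy hxy h.1 h.2⟩,
    gens_finite, gens_inv, gens_closure⟩, ?_⟩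
  · rintro ⟨L, hL⟩
    have := limit_one gens_finite subexponential hL
    subst this
    exact (hgaps A hA).1 hL
  · exact ⟨1, (hgaps A hA).2 h⟩
  intro G _ S hS hsym hgen
  refine ⟨fun F hF => ?_, fun A hA => ⟨fun h => Tendsto.mono_left h inf_le_left, fun h => ?_⟩,
    ⟨fun h => ?_, ?_⟩, fun hji h hne => conjugates hS hsym hgen hji hne⟩
  · have hfwd : (almost S hS F).FiniteIndex → RatioOne S F := fun h =>
      ratio_of_index hS hsym hgen hF (almost S hS F) subset_rfl
    refine ⟨almost S hS F, rfl, ⟨fun h => ?_, hfwd⟩, top_of_ratio hS hgen, fun h => ?_⟩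
    · rw [top_of_ratio hS hgen h]
      infer_instance
    · apply hfwd
      rw [h]
      infer_instance
  · refine ratio_of_gaps hS hA (fun n => ratio S n - 1) 0 (fun n => le_rfl) ?_
    have := Tendsto.sub_const h 1
    rwa [sub_self] at this
  · refine ⟨1, fun l h1 _ _ => ⟨[], l, [], by simp, ?_, ?_⟩⟩
    · rintro rfl
      simp at h1
    · have h2 : l.prod ∈ almost S hS atTop := by
        rw [top_of_ratio hS hgen h]
        exact Subgroup.mem_top _
      exact h2
  · rintro ⟨k, hk⟩
    exact ratio_of_subword hS hk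

end Pool.Agent.Results.MP_4613a9_al.AlmostStabilizer
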