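import Mathlib
import Pool.Agent.Results.MP_4613a9_al.AlmostStabilizer

/-!
# An upper bound for the ratios of the growth function of the first Grigorchuk group

`γ n` is the number of elements of the ball of radius `n` of the first Grigorchuk group with its
generators `a`, `b`, `c`, `d`, and `r n = γ (n + 1) / γ n`. It is shown that
`407 γ (n + 1) ≤ 694 γ n + 7380` for even `n` and `23 γ (n + 1) ≤ 37 γ n + 360` for odd `n`, so
that the limes superior of `r n` is at most `694 / 407 < 1.706`, and at most `37 / 23 < 1.609`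
along the odd `n`. (For the free product of a group of order two and a Klein four-group, of which
the group is a quotient, the values are `9 / 5` and `5 / 3`.) The definitions (`Ball`, `ratio`,
`Grigorchuk`, `gens`) are those of `AlmostStabilizer.lean`.
-/

set_option autoImplicit false

namespace Pool.Agent.Results.MP_4613a9_al.RatioBounds

open Filter Topology Pool.Agent.Results.MP_4613a9_al.AlmostStabilizer

/-- The number of elements of length `n + 1`. -/
theorem sphere_le (n : ℕ) : (Ball gens (n + 1) \ Ball gens n).ncard ≤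
    (EA (n + 1)).ncard + (EV (n + 1)).ncard := by
  have hsub : Ball gens (n + 1) \ Ball gens n ⊆ EA (n + 1) ∪ EV (n + 1) := by
    intro g hg
    obtain ⟨l, hl, h1, rfl⟩ := geo_of_sphere hg
    obtain ⟨l', y, rfl, h2⟩ := exists_last (l := l) (n := n) (by omega)
    by_cases hy : y = genA
    · subst hy
      exact Or.inl ⟨l', hl, by omega, rfl⟩
    · exact Or.inr ⟨l', y, hy, hl, by omega, rfl⟩
  exact (Set.ncard_le_ncard hsub ((EA_finite _).union (EV_finite _))).trans
    (Set.ncard_union_le _ _)

theorem geo_prod {l : List Grigorchuk} {n : ℕ} (h : Geo gens l) (hn : l.length = n + 1) :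
    l.prod ∈ Ball gens (n + 1) \ Ball gens n :=
  ⟨⟨l, hn.le, h.1, rfl⟩, h.2 n (by omega)⟩

theorem split_sphere (n : ℕ) :
    (EA (n + 2)).ncard + (EA (n + 1)).ncard ≤ (Ball gens (n + 1) \ Ball gens n).ncard := by
  have hfin : (Ball gens (n + 1) \ Ball gens n).Finite :=
    (ball_finite gens_finite (n + 1)).subset Set.sdiff_subset
  have h1 : (EA (n + 2)).ncard ≤
      {h | h ∈ Ball gens (n + 1) \ Ball gens n ∧ h * genA ∉ Ball gens (n + 1)}.ncard := by
    refine Set.ncard_le_ncard_of_injOn (fun g => g * genA) ?_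
      (fun _ _ _ _ h => mul_right_cancel h) (hfin.subset fun g hg => hg.1)
    rintro g ⟨l, hl, h1, rfl⟩
    have e : (l ++ [genA]).prod * genA = l.prod := by
      rw [List.prod_append, List.prod_singleton, mul_assoc, genA_mul, mul_one]
    refine ⟨?_, ?_⟩
    · show (l ++ [genA]).prod * genA ∈ _
      rw [e]
      exact geo_prod (geo_append hl).1 (by omega)
    · show (l ++ [genA]).prod * genA * genA ∉ Ball gens (n + 1)
      rw [mul_assoc, genA_mul, mul_one]
      refine hl.2 (n + 1) ?_
      rw [List.length_append, List.length_singleton]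
      omega
  have hdis : Disjoint
      {h | h ∈ Ball gens (n + 1) \ Ball gens n ∧ h * genA ∉ Ball gens (n + 1)} (EA (n + 1)) := by
    rw [Set.disjoint_left]
    rintro h ⟨-, h2⟩ ⟨l, hl, h3, rfl⟩
    apply h2
    rw [List.prod_append, List.prod_singleton, mul_assoc, genA_mul, mul_one]
    exact ⟨l, by omega, (geo_append hl).1.1, rfl⟩
  have hsub : {h | h ∈ Ball gens (n + 1) \ Ball gens n ∧ h * genA ∉ Ball gens (n + 1)} ∪
      EA (n + 1) ⊆ Ball gens (n + 1) \ Ball gens n := by
    rintro h (h | ⟨l, hl, h3, rfl⟩)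
    · exact h.1
    · exact geo_prod hl (by rw [List.length_append, List.length_singleton]; omega)
  have h3 := Set.ncard_le_ncard hsub hfin
  rw [Set.ncard_union_eq hdis (hfin.subset fun g hg => hg.1) (EA_finite _)] at h3
  omega

theorem ball_succ (n : ℕ) : (Ball gens (n + 1)).ncard =
    (Ball gens (n + 1) \ Ball gens n).ncard + (Ball gens n).ncard :=
  (Set.ncard_sdiff_add_ncard_of_subset (ball_mono gens (Nat.le_succ n))
    (ball_finite gens_finite (n + 1))).symm

theorem EA_one : (EA 1).ncard ≤ 1 := by
  have : EA 1 ⊆ {genA} := by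
    rintro g ⟨l, hl, h1, rfl⟩
    have : l = [] := List.eq_nil_of_length_eq_zero (by omega)
    subst this
    simp
  exact (Set.ncard_le_ncard this).trans (Set.ncard_singleton _).le

theorem EV_one : (EV 1).ncard ≤ 3 := by
  have : EV 1 ⊆ ({genB, genC, genD} : Set Grigorchuk) := by
    rintro g ⟨l, x, hx, hl, h1, rfl⟩
    have : l = [] := List.eq_nil_of_length_eq_zero (by omega)
    subst this
    simpa using letter (hl.1 x (by simp)) hx
  refine (Set.ncard_le_ncard this (Set.toFinite _)).trans ?_
  refine (Set.ncard_insert_le _ _).trans ?_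
  have := Set.ncard_insert_le genC ({genD} : Set Grigorchuk)
  rw [Set.ncard_singleton] at this
  omega

/-- The relation `adad = dada`. -/
theorem adad : genA * genD * genA * genD = genD * genA * genD * genA := by
  apply Subtype.ext
  apply Equiv.ext
  intro w
  show actA (actD (actA (actD w))) = actD (actA (actD (actA w)))
  rcases w with _ | ⟨x, w⟩
  · simp [actA, actD]
  · cases x <;> simp [actA, actD]

/-- No geodesic word has a subword `z a d a d`. -/
theorem no_dad {l : List Grigorchuk} {z : Grigorchuk} (hz : z ≠ genA)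
    (h : Geo gens (l ++ [z, genA, genD, genA, genD])) : False := by
  have h1 := (geo_append h).2
  refine h1.2 4 (by simp) ?_
  have e : ([z, genA, genD, genA, genD] : List Grigorchuk).prod =
      (z * genD) * (genA * genD * genA) := by
    simp only [List.prod_cons, List.prod_nil, mul_one]
    have h2 := adad
    calc z * (genA * (genD * (genA * genD))) = z * (genA * genD * genA * genD) := by
          simp only [mul_assoc]
      _ = z * (genD * genA * genD * genA) := by rw [h2]
      _ = _ := by simp only [mul_assoc]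
  rw [e]
  refine ball_mul (n := 1) (m := 3) (mul_mem_ball (letter (h1.1 z (by simp)) hz) (by simp)) ?_
  refine ⟨[genA, genD, genA], by simp, fun s hs => ?_, by simp [mul_assoc]⟩
  rw [gens_eq]
  simp only [List.mem_cons, List.not_mem_nil, or_false] at hs
  rcases hs with rfl | rfl | rfl <;> simp

/-- The elements with a geodesic word of length `m` ending in `a`, but none ending in `da`. -/
def AO (m : ℕ) : Set Grigorchuk :=
  {g | g ∈ EA m ∧ ¬ ∃ l, Geo gens (l ++ [genD, genA]) ∧ l.length + 2 = m ∧
    g = (l ++ [genD, genA]).prod}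

theorem AO_sub (m : ℕ) : AO m ⊆ EA m := fun _ h => h.1

theorem AO_le (m : ℕ) : (AO m).ncard ≤ (EA m).ncard :=
  Set.ncard_le_ncard (AO_sub m) (EA_finite m)

theorem card_image_mul (E : Set Grigorchuk) (hE : E.Finite) (x : Grigorchuk) :
    ((fun g => g * x) '' E).ncard ≤ E.ncard := Set.ncard_image_le hE

theorem EV_le_AO (n : ℕ) : (EV (n + 5)).ncard ≤ 2 * (EA (n + 4)).ncard + (AO (n + 4)).ncard := by
  have hsub : EV (n + 5) ⊆ ((fun g => g * genB) '' EA (n + 4) ∪ (fun g => g * genC) '' EA (n + 4))
      ∪ (fun g => g * genD) '' AO (n + 4) := by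
    rintro g ⟨l, y, hy, hl, h1, rfl⟩
    obtain ⟨l', a, rfl, h2⟩ := exists_last (l := l) (n := n + 3) (by omega)
    have h3 : Geo gens (l' ++ [a, y]) := by simpa using hl
    have ha : a = genA := (pair_alt (geo_append h3).2).2 hy
    subst ha
    have e : (l' ++ [genA] ++ [y]).prod = (l' ++ [genA]).prod * y := by
      rw [List.prod_append (l₁ := l' ++ [genA]), List.prod_singleton]
    have hA : (l' ++ [genA]).prod ∈ EA (n + 4) := ⟨l', (geo_append hl).1, by omega, rfl⟩
    have hy' := letter (hl.1 y (by simp)) hy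
    simp only [Set.mem_insert_iff, Set.mem_singleton_iff] at hy'
    rcases hy' with rfl | rfl | rfl
    · exact Or.inl (Or.inl ⟨_, hA, e.symm⟩)
    · exact Or.inl (Or.inr ⟨_, hA, e.symm⟩)
    · refine Or.inr ⟨_, ⟨hA, ?_⟩, e.symm⟩
      rintro ⟨k, hk, hk2, hk3⟩
      obtain ⟨k2, b, rfl, hk4⟩ := exists_last (l := k) (n := n + 1) (by omega)
      obtain ⟨k1, z, rfl, hk5⟩ := exists_last (l := k2) (n := n) (by omega)
      have p1 : Geo gens [b, genD] := (geo_append (l₁ := k1 ++ [z]) (l₂ := [b, genD])
        (geo_append (l₁ := k1 ++ [z] ++ [b, genD]) (l₂ := [genA]) (by simpa using hk)).1).2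
      have hDA : genD ≠ genA := hy
      have hb : b = genA := (pair_alt p1).2 hDA
      subst hb
      have p2 : Geo gens [z, genA] := (geo_append (l₁ := k1) (l₂ := [z, genA])
        (geo_append (l₁ := k1 ++ [z, genA]) (l₂ := [genD, genA]) (by simpa using hk)).1).2
      have hz : z ≠ genA := fun h => (pair_alt p2).1 h rfl
      refine no_dad (l := k1) hz ?_
      have e2 : (k1 ++ [z, genA, genD, genA, genD]).prod = (l' ++ [genA] ++ [genD]).prod := by
        rw [e, hk3]
        simp [mul_assoc]
      refine ⟨fun s hs => ?_, fun m hm hmem => ?_⟩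
      · have hs' : s ∈ k1 ++ [z] ++ [genA] ++ [genD, genA] ∨ s = genD := by
          simp only [List.mem_append, List.mem_cons, List.not_mem_nil, or_false] at hs ⊢
          tauto
        rcases hs' with hs' | rfl
        · exact hk.1 s hs'
        · rw [gens_eq]
          simp
      · rw [e2] at hmem
        refine hl.2 m ?_ hmem
        simp only [List.length_append, List.length_cons, List.length_nil] at hm h1 hk2 ⊢
        omega
  have f1 : ((fun g => g * genB) '' EA (n + 4)).Finite := (EA_finite _).image _
  have f2 : ((fun g => g * genC) '' EA (n + 4)).Finite := (EA_finite _).image _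
  have f3 : ((fun g => g * genD) '' AO (n + 4)).Finite :=
    ((EA_finite _).subset (AO_sub _)).image _
  have h1 := Set.ncard_le_ncard hsub ((f1.union f2).union f3)
  have h2 := Set.ncard_union_le ((fun g => g * genB) '' EA (n + 4) ∪
    (fun g => g * genC) '' EA (n + 4)) ((fun g => g * genD) '' AO (n + 4))
  have h3 := Set.ncard_union_le ((fun g => g * genB) '' EA (n + 4))
    ((fun g => g * genC) '' EA (n + 4))
  have h4 := card_image_mul (EA (n + 4)) (EA_finite _) genB
  have h5 := card_image_mul (EA (n + 4)) (EA_finite _) genC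
  have h6 := card_image_mul (AO (n + 4)) ((EA_finite _).subset (AO_sub _)) genD
  omega

/-- The words behind the elements of `EA (n + 3)`. -/
theorem EA_words {n : ℕ} {g : Grigorchuk} (hg : g ∈ EA (n + 3)) :
    ∃ l x, x ∈ ({genB, genC, genD} : Set Grigorchuk) ∧ (l ++ [genA]).prod ∈ EA (n + 1) ∧
      g = (l ++ [genA]).prod * (x * genA) ∧ Geo gens (l ++ [genA] ++ [x, genA]) ∧
      (l ++ [genA]).length = n + 1 := by
  obtain ⟨l, hl, h1, rfl⟩ := hg
  obtain ⟨l', x, rfl, h2⟩ := exists_last (l := l) (n := n + 1) (by omega)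
  obtain ⟨l'', a, rfl, h3⟩ := exists_last (l := l') (n := n) (by omega)
  have g1 : Geo gens (l'' ++ [a, x, genA]) := by simpa using hl
  have p1 : Geo gens [x, genA] :=
    (geo_append (l₁ := l'' ++ [a]) (l₂ := [x, genA]) (by simpa using g1)).2
  have p2 : Geo gens [a, x] := (geo_append (l₁ := l'') (l₂ := [a, x])
    (geo_append (l₁ := l'' ++ [a, x]) (l₂ := [genA]) (by simpa using g1)).1).2
  have hx : x ≠ genA := fun h => (pair_alt p1).1 h rfl
  have ha : a = genA := (pair_alt p2).2 hx
  subst ha
  have hlen : (l'' ++ [genA]).length = n + 1 := by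
    rw [List.length_append, List.length_singleton]
    omega
  refine ⟨l'', x, letter (g1.1 x (by simp)) hx, ⟨l'', ?_, by omega, rfl⟩, ?_, ?_, hlen⟩
  · exact (geo_append (l₁ := l'' ++ [genA]) (l₂ := [x, genA]) (by simpa using g1)).1
  · simp [mul_assoc]
  · simpa using g1

theorem AO_two (n : ℕ) : (AO (n + 3)).ncard ≤ 2 * (EA (n + 1)).ncard := by
  have hsub : AO (n + 3) ⊆ (fun g => g * (genB * genA)) '' EA (n + 1) ∪
      (fun g => g * (genC * genA)) '' EA (n + 1) := by
    rintro g ⟨hg, hn⟩
    obtain ⟨l, x, hx, hE, hgx, hgeo, hlen⟩ := EA_words hg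
    simp only [Set.mem_insert_iff, Set.mem_singleton_iff] at hx
    rcases hx with rfl | rfl | rfl
    · exact Or.inl ⟨_, hE, hgx.symm⟩
    · exact Or.inr ⟨_, hE, hgx.symm⟩
    · exfalso
      refine hn ⟨l ++ [genA], hgeo, by omega, ?_⟩
      rw [hgx]
      simp [mul_assoc]
  have f1 : ((fun g => g * (genB * genA)) '' EA (n + 1)).Finite := (EA_finite _).image _
  have f2 : ((fun g => g * (genC * genA)) '' EA (n + 1)).Finite := (EA_finite _).image _
  have h1 := Set.ncard_le_ncard hsub (f1.union f2)
  have h2 := Set.ncard_union_le ((fun g => g * (genB * genA)) '' EA (n + 1))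
    ((fun g => g * (genC * genA)) '' EA (n + 1))
  have h3 := card_image_mul (EA (n + 1)) (EA_finite _) (genB * genA)
  have h4 := card_image_mul (EA (n + 1)) (EA_finite _) (genC * genA)
  omega

theorem EA_split (n : ℕ) : (EA (n + 3)).ncard ≤ (AO (n + 3)).ncard + (EA (n + 1)).ncard := by
  have hsub : EA (n + 3) ⊆ AO (n + 3) ∪ (fun g => g * (genD * genA)) '' EA (n + 1) := by
    intro g hg
    by_cases h : g ∈ AO (n + 3)
    · exact Or.inl h
    · refine Or.inr ?_
      have h' : ∃ l, Geo gens (l ++ [genD, genA]) ∧ l.length + 2 = n + 3 ∧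
          g = (l ++ [genD, genA]).prod := by
        by_contra hc
        exact h ⟨hg, hc⟩
      obtain ⟨l, hl, h1, h2⟩ := h'
      obtain ⟨l', a, rfl, h3⟩ := exists_last (l := l) (n := n) (by omega)
      have p1 : Geo gens [genD, genA] := (geo_append hl).2
      have hD : genD ≠ genA := fun h => (pair_alt p1).1 h rfl
      have p2 : Geo gens [a, genD] := (geo_append (l₁ := l') (l₂ := [a, genD])
        (geo_append (l₁ := l' ++ [a, genD]) (l₂ := [genA]) (by simpa using hl)).1).2
      have ha : a = genA := (pair_alt p2).2 hD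
      subst ha
      refine ⟨(l' ++ [genA]).prod, ⟨l', (geo_append hl).1, by omega, rfl⟩, ?_⟩
      show (l' ++ [genA]).prod * (genD * genA) = g
      rw [h2]
      simp [mul_assoc]
  have f1 : (AO (n + 3)).Finite := (EA_finite _).subset (AO_sub _)
  have f2 : ((fun g => g * (genD * genA)) '' EA (n + 1)).Finite := (EA_finite _).image _
  have h1 := Set.ncard_le_ncard hsub (f1.union f2)
  have h2 := Set.ncard_union_le (AO (n + 3)) ((fun g => g * (genD * genA)) '' EA (n + 1))
  have h3 := card_image_mul (EA (n + 1)) (EA_finite _) (genD * genA)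
  omega

/-- The sum of the numbers `#(EA m)` over the `m ≤ n` with the parity of `n`. -/
noncomputable def T : ℕ → ℕ
  | 0 => 0
  | 1 => (EA 1).ncard
  | n + 2 => (EA (n + 2)).ncard + T n

theorem T_le (n : ℕ) :
    (EA (n + 2)).ncard + 2 * T (n + 1) + 2 * T n ≤ (Ball gens (n + 1)).ncard := by
  induction n with
  | zero =>
    have h1 := ball_succ 0
    have h2 := split_sphere 0
    have h3 : 1 ≤ (Ball gens 0).ncard := by
      rw [Nat.one_le_iff_ne_zero, Ne, Set.ncard_eq_zero (ball_finite gens_finite 0)]
      exact Set.Nonempty.ne_empty ⟨1, one_mem _ _⟩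
    have h4 := EA_one
    simp only [zero_add, T] at *
    omega
  | succ n ih =>
    have h1 := ball_succ (n + 1)
    have h2 := split_sphere (n + 1)
    have h3 : T (n + 2) = (EA (n + 2)).ncard + T n := rfl
    simp only [add_assoc, Nat.reduceAdd] at *
    omega

theorem small (n : ℕ) (hn : n ≤ 4) : (EA (n + 1)).ncard ≤ 9 := by
  have a0 := EA_one
  have v0 := EV_one
  have a1 := EA_succ 0
  have v1 := EV_succ 0
  have a2 := EA_succ 1
  have v2 := EV_succ 1
  have a3 := EA_succ 2
  have v3 := EV_succ 2
  have a4 := EA_succ 3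
  simp only [Nat.reduceAdd, zero_add] at *
  interval_cases n <;> simp only [Nat.reduceAdd, zero_add] <;> omega

theorem T_ge (n : ℕ) : (EA (n + 1)).ncard ≤ T (n + 1) := by
  rcases n with _ | n
  · exact le_rfl
  · show _ ≤ (EA (n + 2)).ncard + T n
    exact Nat.le_add_right _ _

theorem main' (n : ℕ) : 8 * (EV (n + 1)).ncard ≤ 14 * T n + 90 := by
  induction n using Nat.strong_induction_on with
  | _ n ih =>
    by_cases hn : n ≤ 5
    · rcases n with _ | n
      · have := EV_one
        simp only [zero_add, T]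
        omega
      · have h1 := small n (by omega)
        have h2 := EV_succ n
        have h3 := T_ge n
        simp only [add_assoc, Nat.reduceAdd] at *
        omega
    · obtain ⟨k, rfl⟩ : ∃ k, n = k + 6 := ⟨n - 6, by omega⟩
      have h0 := ih (k + 2) (by omega)
      have e1 : T (k + 6) = (EA (k + 6)).ncard + T (k + 4) := rfl
      have e2 : T (k + 4) = (EA (k + 4)).ncard + T (k + 2) := rfl
      have h1 := EV_le_AO (k + 2)
      have h2 := AO_two (k + 3)
      have h3 := EA_split (k + 3)
      have h4 := EA_succ (k + 2)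
      simp only [add_assoc, Nat.reduceAdd] at *
      omega

theorem odd_bound {n : ℕ} (hn : Odd n) :
    23 * (Ball gens (n + 1)).ncard ≤ 37 * (Ball gens n).ncard + 360 := by
  obtain ⟨k, rfl⟩ := hn
  have h1 := T_le (2 * k)
  have h2 := main' (2 * k + 1)
  have h3 := main' (2 * k)
  have h4 := ball_succ (2 * k + 1)
  have h5 := sphere_le (2 * k + 1)
  have h6 := card_EA_le (m := 2 * k + 2) ⟨k + 1, by ring⟩
  have h7 := card_EV_le (m := 2 * k + 2) ⟨k + 1, by ring⟩
  have h8 := EA_succ (2 * k)
  simp only [add_assoc, Nat.reduceAdd] at *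
  omega

theorem even_bound {n : ℕ} (hn : Even n) :
    407 * (Ball gens (n + 1)).ncard ≤ 694 * (Ball gens n).ncard + 7380 := by
  by_cases hs : n ≤ 5
  · have a0 := EA_one
    have v0 := EV_one
    have a1 := EA_succ 0
    have v1 := EV_succ 0
    have a2 := EA_succ 1
    have v2 := EV_succ 1
    have a3 := EA_succ 2
    have v3 := EV_succ 2
    have a4 := EA_succ 3
    have v4 := EV_succ 3
    have t3 := T_le 3
    have e4 : T 4 = (EA 4).ncard + T 2 := rfl
    have b0 := ball_succ 0
    have b2 := ball_succ 2
    have b4 := ball_succ 4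
    have s0 := sphere_le 0
    have s2 := sphere_le 2
    have s4 := sphere_le 4
    simp only [Nat.reduceAdd, zero_add] at *
    interval_cases n
    · simp only [zero_add]
      omega
    · exact absurd hn (by decide)
    · simp only [Nat.reduceAdd]
      omega
    · exact absurd hn (by decide)
    · simp only [Nat.reduceAdd]
      omega
    · exact absurd hn (by decide)
  · obtain ⟨k, rfl⟩ : ∃ k, n = k + 6 := ⟨n - 6, by omega⟩
    have h1 := T_le (k + 5)
    have h2 : T (k + 6) = (EA (k + 6)).ncard + T (k + 4) := rfl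
    have h3 : T (k + 4) = (EA (k + 4)).ncard + T (k + 2) := rfl
    have h4 := main' (k + 2)
    have h5 := main' (k + 4)
    have h6 := main' (k + 5)
    have h7 := EA_succ (k + 2)
    have h8 := EA_succ (k + 4)
    have h9 := EA_succ (k + 5)
    have h10 := card_EA_le hn
    have h11 := card_EV_le hn
    have h12 := EV_le_AO (k + 2)
    have h13 := AO_two (k + 3)
    have h14 := AO_le (k + 6)
    have h15 := ball_succ (k + 6)
    have h16 := sphere_le (k + 6)
    simp only [add_assoc, Nat.reduceAdd] at *
    omega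

theorem ball_pos (n : ℕ) : 1 ≤ (Ball gens n).ncard := by
  rw [Nat.one_le_iff_ne_zero, Ne, Set.ncard_eq_zero (ball_finite gens_finite n)]
  exact Set.Nonempty.ne_empty ⟨1, one_mem _ _⟩

theorem ratio_even {n : ℕ} (hn : Even n) :
    ratio gens n ≤ 694 / 407 + 20 / ((Ball gens n).ncard : ℝ) := by
  have h0 : (0 : ℝ) < ((Ball gens n).ncard : ℝ) := card_pos gens_finite n
  have h1 : (407 : ℝ) * ((Ball gens (n + 1)).ncard : ℝ) ≤
      694 * ((Ball gens n).ncard : ℝ) + 7380 := by
    exact_mod_cast even_bound hn
  rw [ratio, div_le_iff₀ h0, add_mul, div_mul_cancel₀ _ h0.ne']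
  linarith

theorem ratio_odd {n : ℕ} (hn : Odd n) :
    ratio gens n ≤ 37 / 23 + 20 / ((Ball gens n).ncard : ℝ) := by
  have h0 : (0 : ℝ) < ((Ball gens n).ncard : ℝ) := card_pos gens_finite n
  have h1 : (23 : ℝ) * ((Ball gens (n + 1)).ncard : ℝ) ≤
      37 * ((Ball gens n).ncard : ℝ) + 360 := by
    exact_mod_cast odd_bound hn
  rw [ratio, div_le_iff₀ h0, add_mul, div_mul_cancel₀ _ h0.ne']
  linarith

/-- Bounds for the ratios `r n = γ (n + 1) / γ n` of the growth function of the first Grigorchuk
group with respect to `a`, `b`, `c`, `d`. -/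
theorem result :
    (∀ n, Even n → 407 * (Ball gens (n + 1)).ncard ≤ 694 * (Ball gens n).ncard + 7380) ∧
    (∀ n, Odd n → 23 * (Ball gens (n + 1)).ncard ≤ 37 * (Ball gens n).ncard + 360) ∧
    ∀ ε : ℝ, 0 < ε → ∀ᶠ n in atTop,
      ratio gens n < 694 / 407 + ε ∧ (Odd n → ratio gens n < 37 / 23 + ε) := by
  refine ⟨fun n hn => even_bound hn, fun n hn => odd_bound hn, fun ε hε => ?_⟩
  by_cases h : ∀ n, (Ball gens n).ncard < (Ball gens (n + 1)).ncard
  · have hge : ∀ n : ℕ, (n : ℝ) ≤ ((Ball gens n).ncard : ℝ) := by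
      intro n
      have : n ≤ (Ball gens n).ncard := by
        induction n with
        | zero => exact Nat.zero_le _
        | succ n ih => exact Nat.succ_le_of_lt (ih.trans_lt (h n))
      exact_mod_cast this
    obtain ⟨N, hN⟩ := exists_nat_gt (20 / ε)
    filter_upwards [eventually_ge_atTop N] with n hn
    have h1 : (20 : ℝ) / ((Ball gens n).ncard : ℝ) < ε := by
      have h2 : 20 / ε < ((Ball gens n).ncard : ℝ) :=
        hN.trans_le ((Nat.cast_le.2 hn).trans (hge n))
      rw [div_lt_iff₀ (card_pos gens_finite n)]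
      rw [div_lt_iff₀ hε] at h2
      linarith
    refine ⟨?_, fun ho => ?_⟩
    · rcases Nat.even_or_odd n with he | ho
      · have := ratio_even he
        linarith
      · have := ratio_odd ho
        linarith
    · have := ratio_odd ho
      linarith
  · push Not at h
    obtain ⟨m, hm⟩ := h
    have h1 : ratio gens m - 1 = 0 := by
      have h2 := excess_nonneg gens_finite m
      have h3 : ratio gens m ≤ 1 := by
        rw [ratio, div_le_one (card_pos gens_finite m)]
        exact_mod_cast hm
      linarith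
    filter_upwards [eventually_ge_atTop m] with n hn
    obtain ⟨j, rfl⟩ := Nat.exists_eq_add_of_le hn
    have h2 := excess_add gens_finite m j
    rw [h1, mul_zero] at h2
    refine ⟨by linarith, fun _ => by linarith⟩

end Pool.Agent.Results.MP_4613a9_al.RatioBounds
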